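import Pool.Agent.Lib_helper30.AA.Blocks

set_option autoImplicit false
set_option linter.unusedSectionVars false

open Finset Polynomial

namespace Pool.Agent.Lib_helper12.CERT

open Lib_helper30.AA

variable {I : Type} [Fintype I] [DecidableEq I]

/-- One coordinate of the vector attached to `x`. -/
noncomputable def rho (k : ℝ) (D K : Finset I) (x : I → Bool) (i : I) (b : Bool) : ℝ :=
  if b = x i then 1 else if i ∈ D ∧ i ∉ K then -k else 0

/-- The vector attached to `x`. -/
noncomputable def rr (k : ℝ) (D K : Finset I) (x z : I → Bool) : ℝ :=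
  ∏ i, rho k D K x i (z i)

/-- One coordinate of the positive definite form. -/
noncomputable def tt (k : ℝ) (D : Finset I) (i : I) (a b : Bool) : ℝ :=
  if a = b then (if i ∈ D then k else 1) else (if i ∈ D then 1 else 0)

lemma tt_eq (k : ℝ) (D : Finset I) (i : I) (a b : Bool) :
    tt k D i a b = (if i ∈ D then (k - 1) / 2 else 1 / 2) *
      ((-1 : ℝ) ^ a.toNat * (-1 : ℝ) ^ b.toNat) + (if i ∈ D then (k + 1) / 2 else 1 / 2) := by
  unfold tt
  by_cases h : i ∈ D <;> cases a <;> cases b <;> simp [h] <;> ring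

lemma prod_tt (k : ℝ) (D : Finset I) (z w : I → Bool) :
    ∏ i, tt k D i (z i) (w i) = ∑ S : Finset I,
      ((∏ i ∈ S, (if i ∈ D then (k - 1) / 2 else 1 / 2)) *
        (∏ i ∈ univ \ S, (if i ∈ D then (k + 1) / 2 else 1 / 2))) * (chi S z * chi S w) := by
  simp_rw [tt_eq]
  rw [Finset.prod_add, Finset.powerset_univ]
  refine Finset.sum_congr rfl fun S _ => ?_
  rw [Finset.prod_mul_distrib, Finset.prod_mul_distrib]
  unfold chi
  ring

/-- The form is positive definite. -/
lemma eq_zero_of_form {k : ℝ} (hk : 1 < k) (D : Finset I) (v : (I → Bool) → ℝ)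
    (h : ∑ z, v z * ∑ w, (∏ i, tt k D i (z i) (w i)) * v w = 0) (z : I → Bool) : v z = 0 := by
  have h1 : ∑ z, v z * ∑ w, (∏ i, tt k D i (z i) (w i)) * v w = ∑ S : Finset I,
      ((∏ i ∈ S, (if i ∈ D then (k - 1) / 2 else 1 / 2)) *
        (∏ i ∈ univ \ S, (if i ∈ D then (k + 1) / 2 else 1 / 2))) *
        (∑ z, v z * chi S z) ^ 2 := by
    simp_rw [prod_tt, Finset.sum_mul, Finset.mul_sum]
    rw [Finset.sum_congr rfl fun z _ => Finset.sum_comm, Finset.sum_comm]
    refine Finset.sum_congr rfl fun S _ => ?_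
    rw [sq, Finset.sum_mul_sum, Finset.mul_sum]
    refine Finset.sum_congr rfl fun z _ => ?_
    rw [Finset.mul_sum]
    refine Finset.sum_congr rfl fun w _ => ?_
    ring
  have hpos : ∀ S : Finset I, 0 < (∏ i ∈ S, (if i ∈ D then (k - 1) / 2 else 1 / 2)) *
        (∏ i ∈ univ \ S, (if i ∈ D then (k + 1) / 2 else 1 / 2) : ℝ) := by
    intro S
    refine mul_pos (Finset.prod_pos fun i _ => ?_) (Finset.prod_pos fun i _ => ?_)
    · split_ifs <;> linarith
    · split_ifs <;> linarith
  rw [h1] at h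
  have h2 := (Finset.sum_eq_zero_iff_of_nonneg (fun S _ =>
    mul_nonneg (hpos S).le (sq_nonneg _))).1 h
  have h3 : ∀ S : Finset I, coef v S = 0 := by
    intro S
    have h4 := h2 S (Finset.mem_univ S)
    rcases mul_eq_zero.1 h4 with h5 | h5
    · exact absurd h5 (hpos S).ne'
    · unfold coef
      rw [pow_eq_zero_iff two_ne_zero] at h5
      rw [h5, mul_zero]
  rw [inversion v z]
  exact Finset.sum_eq_zero fun S _ => by rw [h3 S, zero_mul]

lemma rr_eq_zero {k : ℝ} {D K : Finset I} {x z : I → Bool}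
    (h : ∃ i, (i ∉ D ∨ i ∈ K) ∧ z i ≠ x i) : rr k D K x z = 0 := by
  obtain ⟨i, hi, hz⟩ := h
  unfold rr
  refine Finset.prod_eq_zero (Finset.mem_univ i) ?_
  unfold rho
  rw [if_neg hz, if_neg]
  rintro ⟨h1, h2⟩
  rcases hi with hi | hi
  · exact hi h1
  · exact h2 hi

lemma tensor_eq (k : ℝ) (D K : Finset I) (x z : I → Bool) :
    ∑ w, (∏ i, tt k D i (z i) (w i)) * rr k D K x w =
      ∏ i, ∑ b : Bool, tt k D i (z i) b * rho k D K x i b := by
  rw [Finset.prod_univ_sum, Fintype.piFinset_univ]
  refine Finset.sum_congr rfl fun w _ => ?_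
  unfold rr
  rw [Finset.prod_mul_distrib]

lemma tensor_eq_zero {k : ℝ} {D K : Finset I} {x z : I → Bool}
    (h : ∃ i, (i ∉ D ∧ z i ≠ x i) ∨ (i ∈ D ∧ i ∉ K ∧ z i = x i)) :
    ∑ w, (∏ i, tt k D i (z i) (w i)) * rr k D K x w = 0 := by
  rw [tensor_eq]
  obtain ⟨i, hi⟩ := h
  refine Finset.prod_eq_zero (Finset.mem_univ i) ?_
  rw [Fintype.sum_bool]
  unfold tt rho
  rcases hi with ⟨hD, hz⟩ | ⟨hD, hK, hz⟩
  · cases hzi : z i <;> cases hxi : x i <;> simp_all
  · cases hzi : z i <;> cases hxi : x i <;> simp_all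

/-- The matrix of values of the vectors `rr` on `X`. -/
noncomputable def Nmat (k : ℝ) (D : Finset I) (X : Finset (I → Bool))
    (K : (I → Bool) → Finset I) : Matrix X X ℝ :=
  Matrix.of fun x x' => rr k D (K x) x x'

/-- For some `k > 1` the vectors `rr` are linearly independent. -/
lemma exists_k (D : Finset I) (X : Finset (I → Bool)) (K : (I → Bool) → Finset I) :
    ∃ k : ℝ, 1 < k ∧ ∀ c : X → ℝ,
      (∀ x' : X, ∑ x : X, c x * rr k D (K x) x x' = 0) → c = 0 := by
  classical
  set P : Matrix X X ℝ[X] := Matrix.of fun x x' =>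
    ∏ i, (if (x' : I → Bool) i = (x : I → Bool) i then 1
      else if i ∈ D ∧ i ∉ K x then -(Polynomial.X) else 0) with hP
  have hev : ∀ k : ℝ, (P.det).eval k = (Nmat k D X K).det := by
    intro k
    have h1 := RingHom.map_det (Polynomial.evalRingHom k) P
    rw [Polynomial.coe_evalRingHom] at h1
    rw [h1]
    congr 1
    ext x x'
    simp only [RingHom.mapMatrix_apply, Matrix.map_apply, hP, map_prod, Matrix.of_apply]
    unfold Nmat rr rho
    rw [Matrix.of_apply]
    refine Finset.prod_congr rfl fun i _ => ?_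
    split_ifs <;> simp
  have h0 : (P.det).eval 0 = 1 := by
    rw [hev 0]
    have h1 : Nmat 0 D X K = 1 := by
      ext x x'
      unfold Nmat
      rw [Matrix.of_apply]
      by_cases h : x = x'
      · subst h
        rw [Matrix.one_apply_eq]
        unfold rr rho
        simp
      · rw [Matrix.one_apply_ne h]
        have : ∃ i, (x' : I → Bool) i ≠ (x : I → Bool) i := by
          by_contra hcon
          push Not at hcon
          exact h (Subtype.ext (funext fun i => (hcon i).symm))
        obtain ⟨i, hi⟩ := this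
        unfold rr rho
        refine Finset.prod_eq_zero (Finset.mem_univ i) ?_
        rw [if_neg hi]
        simp
    rw [h1, Matrix.det_one]
  have hne : P.det ≠ 0 := by
    intro h
    rw [h] at h0
    simp at h0
  obtain ⟨k, hk, hk2⟩ := (Set.Ioi_infinite (1 : ℝ)).exists_notMem_finset P.det.roots.toFinset
  refine ⟨k, hk, fun c hc => ?_⟩
  have hdet : (Nmat k D X K).det ≠ 0 := by
    rw [← hev]
    intro h
    apply hk2
    rw [Multiset.mem_toFinset, Polynomial.mem_roots hne]
    exact h
  refine Matrix.eq_zero_of_vecMul_eq_zero hdet ?_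
  ext x'
  simp only [Matrix.vecMul, dotProduct, Pi.zero_apply, Nmat, Matrix.of_apply]
  exact hc x'

/-- **The butterfly inequality** (equivalent to Reimer's inequality). -/
theorem butterfly (D : Finset I) (X : Finset (I → Bool)) (K : (I → Bool) → Finset I) :
    X.card ≤ (univ.filter (fun z : I → Bool =>
      (∃ x ∈ X, ∀ i, (i ∉ D ∨ i ∈ K x) → z i = x i) ∧
      (∃ x ∈ X, (∀ i, i ∉ D → z i = x i) ∧ ∀ i, i ∈ D → i ∉ K x → z i ≠ x i))).card := by
  classical
  by_contra hlt
  push Not at hlt
  set W : Finset (I → Bool) := univ.filter (fun z : I → Bool =>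
      (∃ x ∈ X, ∀ i, (i ∉ D ∨ i ∈ K x) → z i = x i) ∧
      (∃ x ∈ X, (∀ i, i ∉ D → z i = x i) ∧ ∀ i, i ∈ D → i ∉ K x → z i ≠ x i)) with hW
  obtain ⟨k, hk, hind⟩ := exists_k D X K
  let L : (X → ℝ) →ₗ[ℝ] (W → ℝ) :=
    { toFun := fun c w => ∑ x : X, c x * rr k D (K x) x w
      map_add' := by
        intro c c'
        ext w
        simp only [Pi.add_apply, add_mul, Finset.sum_add_distrib]
      map_smul' := by
        intro a c
        ext w
        simp only [Pi.smul_apply, smul_eq_mul, RingHom.id_apply, Finset.mul_sum, mul_assoc] }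
  have hker : LinearMap.ker L ≠ ⊥ := by
    apply LinearMap.ker_ne_bot_of_finrank_lt
    rw [Module.finrank_fintype_fun_eq_card, Module.finrank_fintype_fun_eq_card,
      Fintype.card_coe, Fintype.card_coe]
    exact hlt
  obtain ⟨c, hc, hc0⟩ := (Submodule.ne_bot_iff _).1 hker
  have hcW : ∀ w ∈ W, ∑ x : X, c x * rr k D (K x) x w = 0 := by
    intro w hw
    exact congrFun (LinearMap.mem_ker.1 hc) ⟨w, hw⟩
  apply hc0
  apply hind
  set v : (I → Bool) → ℝ := fun z => ∑ x : X, c x * rr k D (K x) x z with hv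
  have hv0 : ∀ z, v z = 0 := by
    apply eq_zero_of_form hk D v
    refine Finset.sum_eq_zero fun z _ => ?_
    by_cases hR : ∃ x ∈ X, ∀ i, (i ∉ D ∨ i ∈ K x) → z i = x i
    · by_cases hY : ∃ x ∈ X, (∀ i, i ∉ D → z i = x i) ∧ ∀ i, i ∈ D → i ∉ K x → z i ≠ x i
      · have : v z = 0 := hcW z (by rw [hW, Finset.mem_filter]; exact ⟨Finset.mem_univ _, hR, hY⟩)
        rw [this, zero_mul]
      · have : ∑ w, (∏ i, tt k D i (z i) (w i)) * v w = 0 := by
          simp only [hv, Finset.mul_sum]
          rw [Finset.sum_comm]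
          refine Finset.sum_eq_zero fun x _ => ?_
          have h1 : ∑ w, (∏ i, tt k D i (z i) (w i)) * (c x * rr k D (K x) x w) =
              c x * ∑ w, (∏ i, tt k D i (z i) (w i)) * rr k D (K x) x w := by
            rw [Finset.mul_sum]
            exact Finset.sum_congr rfl fun w _ => by ring
          rw [h1, tensor_eq_zero, mul_zero]
          by_contra hcon
          push Not at hcon
          apply hY
          refine ⟨x, x.2, fun i hi => ?_, fun i hi hK => ?_⟩
          · exact (hcon i).1 hi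
          · exact (hcon i).2 hi hK
        rw [this, mul_zero]
    · have : v z = 0 := by
        refine Finset.sum_eq_zero fun x _ => ?_
        rw [rr_eq_zero, mul_zero]
        by_contra hcon
        push Not at hcon
        exact hR ⟨x, x.2, fun i hi => hcon i hi⟩
      rw [this, zero_mul]
  intro x'
  exact hv0 x'

end Pool.Agent.Lib_helper12.CERT
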