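import Pool.Agent.Lib_helper12.CERT.Reg

set_option autoImplicit false
set_option linter.unusedSectionVars false

open Finset

namespace Pool.Agent.Lib_helper12.CERT

open Lib_helper30.AA Lib_helper8.QP

variable {I : Type} [Fintype I] [DecidableEq I]

lemma var_le {h : (I → Bool) → ℝ} (hh : ∀ x, 0 ≤ h x ∧ h x ≤ 1) :
    av (fun x => (h x - av h) ^ 2) ≤ 1 / 4 := by
  have h1 : av (fun x => (h x - av h) ^ 2) = av (fun x => h x ^ 2) - av h ^ 2 := by
    have h2 : (fun x => (h x - av h) ^ 2) = fun x => (h x ^ 2 - h x * (2 * av h)) + av h ^ 2 := by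
      funext x; ring
    rw [h2, av_add, av_sub, av_mul_right, av_const]
    ring
  have h3 : av (fun x => h x ^ 2) ≤ av h := av_mono fun x => by
    have := hh x
    nlinarith
  rw [h1]
  nlinarith [sq_nonneg (av h - 1 / 2)]

/-- The cost of the certificates. -/
noncomputable def cost (f c : (I → Bool) → ℝ) (T : (I → Bool) → Finset I) : ℝ :=
  ∑ i, av (fun y => if i ∈ T y then c y else 0) * wt f i

lemma cost_eq (f c : (I → Bool) → ℝ) (T : (I → Bool) → Finset I) :
    av (fun y => c y * ∑ i ∈ T y, wt f i) = cost f c T := by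
  unfold cost
  have h1 : ∀ i, av (fun y => if i ∈ T y then c y else 0) * wt f i =
      av (fun y => (if i ∈ T y then c y else 0) * wt f i) := fun i => by rw [av_mul_right]
  simp_rw [h1]
  rw [← av_sum]
  congr 1
  funext y
  rw [Finset.mul_sum]
  have h2 : ∀ i, (if i ∈ T y then c y else 0) * wt f i = if i ∈ T y then c y * wt f i else 0 := by
    intro i
    split_ifs <;> simp
  simp_rw [h2]
  rw [← Finset.sum_filter, Finset.filter_univ_mem]

lemma one_sided {f h c : (I → Bool) → ℝ} (hf : ∀ x, |f x| ≤ 1) {d : ℕ} (hd1 : 1 ≤ d)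
    (hd : LowDeg d f) (hh : ∀ x, 0 ≤ h x ∧ h x ≤ 1) (hc : ∀ x, 0 ≤ c x)
    (T : (I → Bool) → Finset I) (hT : ∀ y z, (∀ i ∈ T y, z i = y i) → c y ≤ h z)
    {κ : ℝ} (hκ : 0 < κ)
    (hle : κ ≤ av h * av f - av (fun x => h x * f x) - 2 * (av h - av c)) :
    κ ^ 3 ≤ 8 * (d : ℝ) ^ 2 * cost f c T := by
  have hd' : (1 : ℝ) ≤ d := by exact_mod_cast hd1
  set Es : ℝ := 4 * (d : ℝ) ^ 2 / κ ^ 2 with hEs
  have hE : 0 < Es := by positivity
  obtain ⟨L, hL1, hL2⟩ := regularise hf hd hE.le
  set g := gL f L with hg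
  have h1 := pair_av (gL_bound hf L) hh hc T hT
  rw [← hg] at h1
  -- the first part
  have h2 : av (fun y => c y * Th g (T y)) ≤ Es * cost f c T := by
    rw [← cost_eq, ← av_mul_left]
    refine av_mono fun y => ?_
    calc c y * Th g (T y) ≤ c y * (Es * ∑ i ∈ T y, wt f i) :=
          mul_le_mul_of_nonneg_left (hL2 _) (hc y)
      _ = _ := by ring
  -- the second part
  have h3 : W f L ≤ κ ^ 2 := by
    have h4 : Es * W f L ≤ Es * κ ^ 2 := by
      refine hL1.trans (le_of_eq ?_)
      rw [hEs]
      field_simp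
    exact le_of_mul_le_mul_left h4 hE
  have h5 : av h * av (fun x => f x - g x) - av (fun x => h x * (f x - g x)) ≤ κ / 2 := by
    have h6 : av h * av (fun x => f x - g x) - av (fun x => h x * (f x - g x)) =
        - av (fun x => (h x - av h) * (f x - g x)) := by
      have h7 : (fun x => (h x - av h) * (f x - g x)) =
          fun x => h x * (f x - g x) - av h * (f x - g x) := by funext x; ring
      have h7' := av_sub (fun x => h x * (f x - g x)) (fun x => av h * (f x - g x))
      rw [av_mul_left] at h7'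
      rw [h7, h7']
      ring
    rw [h6]
    have h8 := av_cs (fun x => h x - av h) (fun x => f x - g x)
    rw [av_sq_sub_gL] at h8
    have h9 : av (fun x => (h x - av h) * (f x - g x)) ^ 2 ≤ (κ / 2) ^ 2 := by
      calc _ ≤ av (fun x => (h x - av h) ^ 2) * W f L := h8
        _ ≤ 1 / 4 * κ ^ 2 := mul_le_mul (var_le hh) h3
            (Finset.sum_nonneg fun _ _ => sq_nonneg _) (by norm_num)
        _ = (κ / 2) ^ 2 := by ring
    have h10 := abs_le_of_sq_le_sq h9 (by positivity)
    linarith [(abs_le.1 h10).1]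
  have h11 : av h * av f - av (fun x => h x * f x) =
      (av h * av g - av (fun x => h x * g x)) +
      (av h * av (fun x => f x - g x) - av (fun x => h x * (f x - g x))) := by
    have h12 : (fun x => h x * (f x - g x)) = fun x => h x * f x - h x * g x := by
      funext x; ring
    rw [h12, av_sub, av_sub]
    ring
  have h13 : κ / 2 ≤ Es * cost f c T := by linarith
  have h14 : κ ^ 2 * (κ / 2) ≤ κ ^ 2 * (Es * cost f c T) :=
    mul_le_mul_of_nonneg_left h13 (by positivity)
  have h15 : κ ^ 2 * (Es * cost f c T) = 4 * (d : ℝ) ^ 2 * cost f c T := by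
    rw [hEs]
    field_simp
  nlinarith

lemma wt_neg (f : (I → Bool) → ℝ) (j : I) : wt (fun x => - f x) j = wt f j := by
  unfold wt
  refine Finset.sum_congr rfl fun T _ => ?_
  have := coef_const_mul (-1) f T
  simp only [neg_mul, one_mul] at this
  rw [this]
  ring

/-- **The certificate OSSS inequality.** -/
theorem cert_osss {f h c : (I → Bool) → ℝ} (hf : ∀ x, |f x| ≤ 1) {d : ℕ} (hd1 : 1 ≤ d)
    (hd : LowDeg d f) (hh : ∀ x, 0 ≤ h x ∧ h x ≤ 1) (hc : ∀ x, 0 ≤ c x)
    (T : (I → Bool) → Finset I) (hT : ∀ y z, (∀ i ∈ T y, z i = y i) → c y ≤ h z)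
    {κ : ℝ} (hκ : 0 < κ)
    (hle : κ ≤ |av (fun x => h x * f x) - av h * av f| - 2 * (av h - av c)) :
    κ ^ 3 ≤ 8 * (d : ℝ) ^ 2 * cost f c T := by
  rcases le_total 0 (av (fun x => h x * f x) - av h * av f) with h1 | h1
  · have hcost : cost (fun x => - f x) c T = cost f c T := by
      unfold cost
      simp_rw [wt_neg]
    rw [← hcost]
    refine one_sided (f := fun x => - f x) (fun x => by rw [abs_neg]; exact hf x) hd1 ?_ hh hc T
      hT hκ ?_
    · intro S hS
      have := coef_const_mul (-1) f S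
      simp only [neg_mul, one_mul] at this
      rw [this, hd S hS, neg_zero]
    · rw [abs_of_nonneg h1] at hle
      have h2 : (fun x => h x * -f x) = fun x => - (h x * f x) := by funext x; ring
      rw [h2, av_neg, av_neg]
      linarith
  · refine one_sided hf hd1 hd hh hc T hT hκ ?_
    rw [abs_of_nonpos h1] at hle
    linarith

end Pool.Agent.Lib_helper12.CERT
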