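import Pool.Agent.Lib_helper12.CERT.Tree
import Pool.Agent.Lib_helper12.CERT.Main

set_option autoImplicit false
set_option linter.unusedSectionVars false

open Finset

namespace Pool.Agent.Lib_helper12.CERT

open Lib_helper30.AA Lib_helper8.QP

variable {I : Type} [Fintype I] [DecidableEq I]

lemma vr_eq' (f : (I → Bool) → ℝ) : av (fun x => (f x - av f) ^ 2) = vr f := by
  have h2 : (fun x => (f x - av f) ^ 2) = fun x => (f x ^ 2 - f x * (2 * av f)) + av f ^ 2 := by
    funext x; ring
  rw [h2, av_add, av_sub, av_mul_right, av_const]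
  unfold vr
  ring

open Classical in
/-- **From influential variables to a correlated narrow DNF.** -/
theorem exists_dnf {f : (I → Bool) → ℝ} (hf : ∀ x, |f x| ≤ 1) {d : ℕ} (hd : LowDeg d f)
    (hV : 0 < vr f) {θ K : ℝ} (hθ : 0 < θ) (hK : 0 < K)
    (hAA : ∀ g : (I → Bool) → ℝ, (∀ x, |g x| ≤ 1) → LowDeg d g → vr f / 2 < vr g →
      ∃ j, θ < wt g j) (hKθ : 32 * (d : ℝ) ≤ θ * K * vr f) :
    ∃ T : (I → Bool) → Finset I, ∃ G : (I → Bool) → Prop,
      (∀ y, G y → ((T y).card : ℝ) ≤ K ∧ ∀ z, (∀ i ∈ T y, z i = y i) → G z) ∧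
      vr f / 16 ≤ av (fun x => (if G x then 1 else 0) * f x) -
        av (fun x => if G x then (1 : ℝ) else 0) * av f ∧
      ∃ y, ((T y).card : ℝ) ≤ K ∧ vr f / 16 ≤ av (fun x => f (fill (T y) y x)) - av f := by
  obtain ⟨T, hT, hcost, hinf⟩ := exists_part hf hd hθ
  set m : (I → Bool) → ℝ := fun y => av (fun x => f (fill (T y) y x)) with hm
  set a : ℝ := av f with ha
  have hfill : ∀ y z, (∀ i ∈ T y, z i = y i) → ∀ x, fill (T z) z x = fill (T y) y x := by
    intro y z h x
    rw [hT y z h]
    funext i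
    unfold fill
    by_cases hi : i ∈ T y
    · simp [hi, h i hi]
    · simp [hi]
  have hmc : ∀ y z, (∀ i ∈ T y, z i = y i) → m z = m y := by
    intro y z h
    simp only [hm, hfill y z h]
  have hmb : ∀ y, |m y| ≤ 1 := by
    intro y
    refine (abs_av_le _).trans (av_le_const fun x => hf _)
  have hab : |a| ≤ 1 := (abs_av_le _).trans (av_le_const fun x => hf _)
  -- the variances of the leaves
  have hleaf : ∀ y, vr (fun x => f (fill (T y) y x)) ≤ vr f / 2 := by
    intro y
    by_contra hcon
    push Not at hcon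
    obtain ⟨j, hj⟩ := hAA _ (fun x => hf _) (lowDeg_res hd (T y) y) hcon
    exact absurd (hinf y j) (not_le.2 hj)
  have hav1 : av m = a := by
    have := part_av hT (φ := fun _ => 1) (fun _ _ _ => rfl) f
    simpa using this
  have hav2 : av (fun y => av (fun x => f (fill (T y) y x) ^ 2)) = av (fun x => f x ^ 2) := by
    have := part_av hT (φ := fun _ => 1) (fun _ _ _ => rfl) (fun x => f x ^ 2)
    simpa using this
  have hvm : vr f / 2 ≤ vr m := by
    have h1 : av (fun y => vr (fun x => f (fill (T y) y x))) ≤ vr f / 2 := av_le_const hleaf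
    have h2 : av (fun y => vr (fun x => f (fill (T y) y x))) =
        av (fun x => f x ^ 2) - av (fun y => m y ^ 2) := by
      unfold vr
      rw [av_sub, hav2]
    have h3 : vr m = av (fun y => m y ^ 2) - a ^ 2 := by unfold vr; rw [hav1]
    have h4 : vr f = av (fun x => f x ^ 2) - a ^ 2 := rfl
    rw [h3]
    linarith
  -- the positive part
  have hpos : vr f / 8 ≤ av (fun y => max (m y - a) 0) := by
    have h1 : ∀ y, (m y - a) ^ 2 ≤ 4 * max (m y - a) 0 - 2 * (m y - a) := by
      intro y
      have h2 := abs_le.1 (hmb y)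
      have h3 := abs_le.1 hab
      rcases le_total 0 (m y - a) with h | h
      · rw [max_eq_left h]
        nlinarith
      · rw [max_eq_right h]
        nlinarith
    have h2 := av_mono h1
    have h3 : av (fun y => 4 * max (m y - a) 0 - 2 * (m y - a)) =
        4 * av (fun y => max (m y - a) 0) - 2 * (av m - a) := by
      rw [av_sub, av_mul_left, av_mul_left, av_sub, av_const]
    have h4 : av (fun y => (m y - a) ^ 2) = vr m := by
      rw [← vr_eq', hav1]
    rw [h3, h4, hav1] at h2
    linarith
  -- the long leaves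
  have hlong : av (fun y => if K < ((T y).card : ℝ) then (1 : ℝ) else 0) ≤ vr f / 32 := by
    have h1 : K * av (fun y => if K < ((T y).card : ℝ) then (1 : ℝ) else 0) ≤
        av (fun y => ((T y).card : ℝ)) := by
      rw [← av_mul_left]
      refine av_mono fun y => ?_
      split_ifs with h
      · linarith
      · simp
    have h2 : θ * (K * av (fun y => if K < ((T y).card : ℝ) then (1 : ℝ) else 0)) ≤
        θ * (K * (vr f / 32)) := by
      have h3 := mul_le_mul_of_nonneg_left h1 hθ.le
      linarith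
    exact le_of_mul_le_mul_left (le_of_mul_le_mul_left h2 hθ) hK
  set G : (I → Bool) → Prop := fun y => a < m y ∧ ((T y).card : ℝ) ≤ K with hG
  have hGc : ∀ y z, (∀ i ∈ T y, z i = y i) → (G z ↔ G y) := by
    intro y z h
    simp only [hG, hmc y z h, hT y z h]
  have hcov : av (fun x => (if G x then 1 else 0) * f x) -
        av (fun x => if G x then (1 : ℝ) else 0) * av f =
      av (fun y => (if G y then 1 else 0) * (m y - a)) := by
    have h1 := part_av hT (φ := fun y => if G y then (1 : ℝ) else 0)
      (fun y z h => by simp only [hGc y z h]) f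
    rw [← h1]
    have h2 : (fun y => (if G y then (1 : ℝ) else 0) * (m y - a)) =
        fun y => (if G y then (1 : ℝ) else 0) * m y - (if G y then (1 : ℝ) else 0) * a := by
      funext y; ring
    rw [h2, av_sub, av_mul_right]
  have hcov2 : vr f / 16 ≤ av (fun y => (if G y then 1 else 0) * (m y - a)) := by
    have h1 : ∀ y, max (m y - a) 0 ≤ (if G y then 1 else 0) * (m y - a) +
        2 * (if K < ((T y).card : ℝ) then (1 : ℝ) else 0) := by
      intro y
      have h2 := abs_le.1 (hmb y)
      have h3 := abs_le.1 hab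
      by_cases hc : ((T y).card : ℝ) ≤ K
      · rw [if_neg (not_lt.2 hc)]
        by_cases hp : a < m y
        · rw [if_pos ⟨hp, hc⟩, max_eq_left (by linarith)]
          linarith
        · rw [if_neg fun h : G y => hp h.1, max_eq_right (by linarith)]
          linarith
      · rw [if_pos (not_le.1 hc), if_neg fun h : G y => hc h.2]
        rcases le_total 0 (m y - a) with h | h
        · rw [max_eq_left h]; linarith
        · rw [max_eq_right h]; linarith
    have h2 := av_mono h1
    rw [av_add, av_mul_left] at h2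
    linarith
  refine ⟨T, G, fun y hy => ⟨hy.2, fun z hz => (hGc y z hz).2 hy⟩, ?_, ?_⟩
  · refine hcov2.trans (le_of_eq (hcov.symm.trans ?_))
    congr!
  by_contra hcon
  push Not at hcon
  have h1 : ∀ y, (if G y then 1 else 0) * (m y - a) < vr f / 16 := by
    intro y
    split_ifs with h
    · rw [one_mul]
      exact hcon y h.2
    · rw [zero_mul]
      positivity
  have h2 : av (fun y => (if G y then 1 else 0) * (m y - a)) < vr f / 16 := by
    obtain ⟨y, _, hy⟩ := Finset.exists_max_image (univ : Finset (I → Bool))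
      (fun y => (if G y then 1 else 0) * (m y - a)) ⟨fun _ => false, Finset.mem_univ _⟩
    exact (av_le_const fun x => hy x (Finset.mem_univ x)).trans_lt (h1 y)
  linarith

/-- **Influential variables from a correlated narrow DNF.** -/
theorem inf_of_dnf {f : (I → Bool) → ℝ} (hf : ∀ x, |f x| ≤ 1) {d : ℕ} (hd1 : 1 ≤ d)
    (hd : LowDeg d f) (G : (I → Bool) → Prop) [DecidablePred G] {k : ℕ}
    (hG : ∀ y, G y → ∃ T : Finset I, T.card ≤ k ∧ ∀ z, (∀ i ∈ T, z i = y i) → G z)
    {κ : ℝ} (hκ : 0 < κ)
    (hle : κ ≤ |av (fun x => (if G x then 1 else 0) * f x) -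
      av (fun x => if G x then (1 : ℝ) else 0) * av f|) :
    ∃ j, κ ^ 3 ≤ 8 * (d : ℝ) ^ 2 * k * wt f j := by
  classical
  choose! T hTk hTc using hG
  set T' : (I → Bool) → Finset I := fun y => if G y then T y else ∅ with hT'
  have hcard : ∀ y, (T' y).card ≤ k := by
    intro y
    simp only [hT']
    split_ifs with h
    · exact hTk y h
    · simp
  have h1 := cert_osss (h := fun x => if G x then (1 : ℝ) else 0)
    (c := fun x => if G x then (1 : ℝ) else 0) hf hd1 hd
    (fun x => by split_ifs <;> norm_num) (fun x => by split_ifs <;> norm_num) T' (by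
      intro y z h
      by_cases hy : G y
      · simp only [hT', if_pos hy] at h
        rw [if_pos hy, if_pos (hTc y hy z h)]
      · rw [if_neg hy]
        split_ifs <;> norm_num) hκ (by rw [sub_self, mul_zero, sub_zero]; exact hle)
  have hne : Nonempty I := by
    by_contra hcon
    rw [not_nonempty_iff] at hcon
    have h2 : cost f (fun x => if G x then (1 : ℝ) else 0) T' = 0 := by
      unfold cost
      rw [Finset.univ_eq_empty, Finset.sum_empty]
    rw [h2, mul_zero] at h1
    have : 0 < κ ^ 3 := by positivity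
    linarith
  obtain ⟨j, _, hj⟩ := Finset.exists_max_image (univ : Finset I) (fun i => wt f i)
    Finset.univ_nonempty
  refine ⟨j, h1.trans ?_⟩
  have h2 : cost f (fun x => if G x then (1 : ℝ) else 0) T' ≤ k * wt f j := by
    rw [← cost_eq]
    refine av_le_const fun y => ?_
    have h3 : ∑ i ∈ T' y, wt f i ≤ k * wt f j := by
      calc ∑ i ∈ T' y, wt f i ≤ ∑ _i ∈ T' y, wt f j :=
            Finset.sum_le_sum fun i _ => hj i (Finset.mem_univ i)
        _ = ((T' y).card : ℝ) * wt f j := by rw [Finset.sum_const, nsmul_eq_mul]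
        _ ≤ k * wt f j := by
            refine mul_le_mul_of_nonneg_right ?_ (wt_nonneg f j)
            exact_mod_cast hcard y
    have h4 : 0 ≤ ∑ i ∈ T' y, wt f i := Finset.sum_nonneg fun i _ => wt_nonneg f i
    split_ifs
    · rw [one_mul]; exact h3
    · rw [zero_mul]; exact h4.trans h3
  calc 8 * (d : ℝ) ^ 2 * cost f (fun x => if G x then (1 : ℝ) else 0) T'
      ≤ 8 * (d : ℝ) ^ 2 * (k * wt f j) := mul_le_mul_of_nonneg_left h2 (by positivity)
    _ = _ := by ring

/-- Two points obtained from `x` by flips inside `S`. -/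
lemma exists_flip_fill (S : Finset I) (y x : I → Bool) (j : I) :
    (∃ B ⊆ insert j S, fill S y x = flipSet B x) ∧
      ∃ B ⊆ insert j S, fill S y (Lib_helper30.AA.flip j x) = flipSet B x := by
  constructor
  · refine ⟨S.filter (fun i => x i ≠ y i), ?_, fill_eq_flipSet S y x⟩
    exact (Finset.filter_subset _ _).trans (Finset.subset_insert _ _)
  · obtain ⟨D, hD⟩ := exists_flipSet (fill S y (Lib_helper30.AA.flip j x)) x
    refine ⟨D, ?_, hD.symm⟩
    intro i hi
    by_contra hcon
    rw [Finset.mem_insert, not_or] at hcon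
    have h1 := congrFun hD i
    unfold flipSet fill at h1
    rw [if_pos hi, if_neg hcon.2, flip_apply_of_ne hcon.1] at h1
    cases hx : x i <;> simp_all

lemma wt_fill_le {g : (I → Bool) → ℝ} (hg : ∀ x, |g x| ≤ 1) (S : Finset I) (y : I → Bool)
    (j : I) : wt (fun x => g (fill S y x)) j ≤ Osc g (insert j S) := by
  rw [wt_eq]
  refine av_mono fun x => ?_
  obtain ⟨⟨B, hB, h1⟩, ⟨B', hB', h2⟩⟩ := exists_flip_fill S y x j
  rw [h1, h2]
  have h3 := le_osc (f := g) hB x
  have h4 := le_osc (f := g) hB' x
  have h5 := abs_le.1 (hg (flipSet B x))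
  have h6 := abs_le.1 (hg (flipSet B' x))
  have h7 := abs_le.1 h3
  have h8 := abs_le.1 h4
  set u := g (flipSet B x)
  set v := g (flipSet B' x)
  have h9 : |(u - v) / 2| ≤ osc g (insert j S) x := by
    rw [abs_le]
    constructor <;> linarith
  have h10 : |(u - v) / 2| ≤ 1 := by
    rw [abs_le]
    constructor <;> linarith
  calc ((u - v) / 2) ^ 2 = |(u - v) / 2| * |(u - v) / 2| := by rw [← sq, sq_abs]
    _ ≤ 1 * |(u - v) / 2| := mul_le_mul_of_nonneg_right h10 (abs_nonneg _)
    _ ≤ _ := by rw [one_mul]; exact h9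

/-- **The core of a polynomial with small influences.** -/
theorem core {f : (I → Bool) → ℝ} (hf : ∀ x, |f x| ≤ 1) {d : ℕ}
    (hd : LowDeg d f) {k : ℕ} {κ θ : ℝ} (hκ : 0 < κ) (hθ : 0 < θ) (hk : 1 ≤ k)
    (hsmall : 16 * (d : ℝ) ^ 2 * k * θ ≤ κ * vr f) (hθf : ∀ j, wt f j < θ) :
    ∃ L : Finset I, vr f / 2 ≤ vr (gL f L) ∧
      ∀ S : Finset I, S.card ≤ k → Osc (gL f L) S < κ := by
  have hk' : (1 : ℝ) ≤ k := by exact_mod_cast hk
  set Es : ℝ := κ / (k * θ) with hEs
  have hE : 0 < Es := by positivity
  obtain ⟨L, hL1, hL2⟩ := regular hf hd hE.le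
  refine ⟨L, ?_, ?_⟩
  · have h1 := vr_gL f L
    have h2 : W f L ≤ vr f / 2 := by
      have h3 : Es * W f L ≤ Es * (vr f / 2) := by
        refine hL1.trans ?_
        rw [hEs]
        rw [div_mul_eq_mul_div, le_div_iff₀ (by positivity)]
        linarith
      exact le_of_mul_le_mul_left h3 hE
    linarith
  · intro S hS
    have hSk : ((S.card : ℕ) : ℝ) ≤ k := by exact_mod_cast hS
    rcases S.eq_empty_or_nonempty with h0 | h0
    · refine lt_of_le_of_lt (hL2 S) ?_
      rw [h0, Finset.sum_empty, mul_zero]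
      exact hκ
    · refine lt_of_le_of_lt (hL2 S) ?_
      calc Es * ∑ i ∈ S, wt f i < Es * ∑ _i ∈ S, θ :=
            mul_lt_mul_of_pos_left (Finset.sum_lt_sum_of_nonempty h0 fun i _ => hθf i) hE
        _ = Es * (S.card * θ) := by rw [Finset.sum_const, nsmul_eq_mul]
        _ ≤ Es * (k * θ) := by gcongr
        _ = κ := by rw [hEs]; field_simp

end Pool.Agent.Lib_helper12.CERT
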