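import Pool.Agent.Lib_helper12.CERT.Prod

set_option autoImplicit false
set_option linter.unusedSectionVars false

open Finset

namespace Pool.Agent.Lib_helper12.CERT

open Lib_helper30.AA Lib_helper8.QP

variable {I : Type} [Fintype I] [DecidableEq I]

lemma vr_le_one {f : (I → Bool) → ℝ} (hf : ∀ x, |f x| ≤ 1) : vr f ≤ 1 := by
  have h1 : av (fun x => f x ^ 2) ≤ 1 := av_le_const fun x => by
    have := abs_le.1 (hf x)
    nlinarith
  have h2 : 0 ≤ av f ^ 2 := sq_nonneg _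
  unfold vr
  linarith

/-- The basic quantity. -/
lemma q_facts {V : ℝ} {d : ℕ} (hd1 : 1 ≤ d) (hV : 0 < V) (hV1 : V ≤ 1) :
    0 < V / (2 * d) ∧ V / (2 * d) ≤ 1 / 2 ∧ 2 * (d : ℝ) / V = (V / (2 * d))⁻¹ ∧
      V = 2 * d * (V / (2 * d)) := by
  have hd' : (1 : ℝ) ≤ d := by exact_mod_cast hd1
  refine ⟨by positivity, ?_, ?_, ?_⟩
  · rw [div_le_div_iff₀ (by positivity) (by norm_num)]
    linarith
  · rw [inv_div]
  · field_simp

open Classical in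
/-- (i) implies (iii) and (vi). -/
theorem forward {f : (I → Bool) → ℝ} (hf : ∀ x, |f x| ≤ 1) {d : ℕ} (hd1 : 1 ≤ d)
    (hd : LowDeg d f) (hV : 0 < vr f) (B : ℕ)
    (hAA : ∀ g : (I → Bool) → ℝ, (∀ x, |g x| ≤ 1) → LowDeg d g → 0 < vr g →
      ∃ j, (vr g / (2 * d)) ^ B ≤ wt g j) :
    ∃ T : (I → Bool) → Finset I, ∃ G : (I → Bool) → Prop,
      (∀ y, G y → ((T y).card : ℝ) ≤ (2 * d / vr f) ^ (2 * B + 7) ∧
        ∀ z, (∀ i ∈ T y, z i = y i) → G z) ∧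
      (vr f / (2 * d)) ^ (2 * B + 7) ≤ av (fun x => (if G x then 1 else 0) * f x) -
        av (fun x => if G x then (1 : ℝ) else 0) * av f ∧
      ∃ y, ((T y).card : ℝ) ≤ (2 * d / vr f) ^ (2 * B + 7) ∧
        (vr f / (2 * d)) ^ (2 * B + 7) ≤ av (fun x => f (fill (T y) y x)) - av f := by
  have hd' : (1 : ℝ) ≤ d := by exact_mod_cast hd1
  have hV1 := vr_le_one hf
  obtain ⟨hq0, hq1, hu, hVq⟩ := q_facts hd1 hV hV1
  set V := vr f with hVdef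
  set q : ℝ := V / (2 * d) with hq
  rw [hu]
  have hqi : 2 ≤ q⁻¹ := by
    rw [le_inv_comm₀ (by norm_num) hq0]
    linarith
  have h1 : (q / 2) ^ (B + 1) < (q / 2) ^ B :=
    pow_lt_pow_right_of_lt_one₀ (by positivity) (by linarith) (by omega)
  obtain ⟨T, G, hG, hcov, y, hy1, hy2⟩ := exists_dnf hf hd hV (θ := (q / 2) ^ (B + 1))
    (K := q⁻¹ ^ (2 * B + 7)) (by positivity) (by positivity) (by
      intro g hg hgd hgV
      obtain ⟨j, hj⟩ := hAA g hg hgd (by linarith [half_pos hV])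
      refine ⟨j, lt_of_lt_of_le h1 (le_trans ?_ hj)⟩
      refine pow_le_pow_left₀ (by positivity) ?_ B
      rw [hq, div_div, div_le_div_iff₀ (by positivity) (by positivity)]
      nlinarith) (by
      have h2 : q ^ (2 * B + 2) ≤ (q / 2) ^ (B + 1) := by
        rw [show 2 * B + 2 = 2 * (B + 1) by ring, pow_mul]
        refine pow_le_pow_left₀ (by positivity) ?_ _
        nlinarith
      have h3 : q ^ (2 * B + 2) * q⁻¹ ^ (2 * B + 7) = q⁻¹ ^ 5 := by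
        rw [show 2 * B + 7 = (2 * B + 2) + 5 by ring, pow_add q⁻¹ (2 * B + 2) 5, ← mul_assoc,
          ← mul_pow, mul_inv_cancel₀ hq0.ne', one_pow, one_mul]
      have h4 : q⁻¹ ^ 5 ≤ (q / 2) ^ (B + 1) * q⁻¹ ^ (2 * B + 7) := by
        rw [← h3]
        exact mul_le_mul_of_nonneg_right h2 (by positivity)
      have h5 : (16 : ℝ) * q⁻¹ ≤ q⁻¹ ^ 5 := by
        have h6 : (2 : ℝ) ^ 4 ≤ q⁻¹ ^ 4 := pow_le_pow_left₀ (by norm_num) hqi 4
        calc (16 : ℝ) * q⁻¹ = 2 ^ 4 * q⁻¹ := by norm_num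
          _ ≤ q⁻¹ ^ 4 * q⁻¹ := mul_le_mul_of_nonneg_right h6 (by positivity)
          _ = q⁻¹ ^ 5 := by ring
      calc 32 * (d : ℝ) = 16 * q⁻¹ * V := by
            rw [hVq]
            field_simp
            ring
        _ ≤ (q / 2) ^ (B + 1) * q⁻¹ ^ (2 * B + 7) * V :=
            mul_le_mul_of_nonneg_right (h5.trans h4) hV.le)
  have h7 : q ^ (2 * B + 7) ≤ V / 16 := by
    calc q ^ (2 * B + 7) ≤ q ^ 5 := pow_le_pow_of_le_one hq0.le (by linarith) (by omega)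
      _ = q * q ^ 4 := by ring
      _ ≤ q * (1 / 2) ^ 4 := by gcongr
      _ = q / 16 := by ring
      _ ≤ V / 16 := by
          have : q ≤ V := by
            rw [hq]
            exact div_le_self hV.le (by linarith)
          linarith
  exact ⟨T, G, hG, h7.trans hcov, y, hy1, h7.trans hy2⟩

/-- (ii) implies (i). -/
theorem of_coalition {f : (I → Bool) → ℝ} (hf : ∀ x, |f x| ≤ 1) {d : ℕ} (hd1 : 1 ≤ d)
    (hd : LowDeg d f) (hV : 0 < vr f) (A : ℕ)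
    (h : ∀ g : (I → Bool) → ℝ, (∀ x, |g x| ≤ 1) → LowDeg d g → 0 < vr g →
      ∃ S : Finset I, (S.card : ℝ) ≤ (2 * d / vr g) ^ A ∧ (vr g / (2 * d)) ^ A ≤ Osc g S) :
    ∃ j, (vr f / (2 * d)) ^ (4 * A + 4) ≤ wt f j := by
  by_contra hcon
  push Not at hcon
  have hd' : (1 : ℝ) ≤ d := by exact_mod_cast hd1
  have hV1 := vr_le_one hf
  obtain ⟨hq0, hq1, hu, hVq⟩ := q_facts hd1 hV hV1
  set V := vr f with hVdef
  set q : ℝ := V / (2 * d) with hq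
  have hu2 : 1 ≤ (2 / q) ^ A := one_le_pow₀ (by rw [le_div_iff₀ hq0]; linarith)
  have hk1 : 1 ≤ ⌊(2 / q) ^ A⌋₊ := by
    rw [Nat.one_le_floor_iff]
    exact hu2
  have hk2 : (⌊(2 / q) ^ A⌋₊ : ℝ) ≤ (2 / q) ^ A := Nat.floor_le (by positivity)
  obtain ⟨L, hL1, hL2⟩ := core hf hd (k := ⌊(2 / q) ^ A⌋₊) (κ := (q / 2) ^ A)
    (θ := q ^ (4 * A + 4)) (by positivity) (by positivity) hk1 (by
      rw [← hVdef]
      have h1 : q ^ (4 * A) ≤ (q / 2) ^ (2 * A) := by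
        rw [show 4 * A = 2 * (2 * A) by ring, pow_mul]
        refine pow_le_pow_left₀ (by positivity) ?_ _
        nlinarith
      have h2 : 16 * (d : ℝ) ^ 2 * q ^ 4 ≤ V := by
        have h3 : 16 * (d : ℝ) ^ 2 * q ^ 4 = 4 * V ^ 2 * q ^ 2 := by
          rw [hq]
          field_simp
          ring
        rw [h3]
        have h4 : q ^ 2 ≤ 1 / 4 := by nlinarith
        nlinarith [sq_nonneg V]
      have h5 : (2 / q) ^ A * (q / 2) ^ (2 * A) = (q / 2) ^ A := by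
        rw [two_mul, pow_add, ← mul_assoc, ← mul_pow]
        have : 2 / q * (q / 2) = 1 := by field_simp
        rw [this, one_pow, one_mul]
      calc 16 * (d : ℝ) ^ 2 * (⌊(2 / q) ^ A⌋₊ : ℝ) * q ^ (4 * A + 4)
          ≤ 16 * (d : ℝ) ^ 2 * (2 / q) ^ A * q ^ (4 * A + 4) := by gcongr
        _ = (16 * (d : ℝ) ^ 2 * q ^ 4) * ((2 / q) ^ A * q ^ (4 * A)) := by ring
        _ ≤ V * ((2 / q) ^ A * (q / 2) ^ (2 * A)) := by gcongr
        _ = (q / 2) ^ A * V := by rw [h5]; ring) hcon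
  obtain ⟨S, hS1, hS2⟩ := h (gL f L) (gL_bound hf L) (lowDeg_gL hd L) (by linarith)
  have hg0 : 0 < vr (gL f L) := by linarith
  have h6 : q / 2 ≤ vr (gL f L) / (2 * d) := by
    rw [hq, div_div, div_le_div_iff₀ (by positivity) (by positivity)]
    nlinarith
  have h7 : 2 * (d : ℝ) / vr (gL f L) ≤ 2 / q := by
    rw [div_le_div_iff₀ hg0 hq0]
    rw [hq, mul_div_assoc']
    rw [div_le_iff₀ (by positivity)]
    nlinarith
  have h8 : S.card ≤ ⌊(2 / q) ^ A⌋₊ := by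
    apply Nat.le_floor
    refine hS1.trans (pow_le_pow_left₀ (by positivity) h7 A)
  have h9 : (q / 2) ^ A ≤ Osc (gL f L) S :=
    (pow_le_pow_left₀ (by positivity) h6 A).trans hS2
  exact absurd (hL2 S h8) (not_lt.2 h9)

/-- (iv) implies (ii). -/
theorem of_restriction {f : (I → Bool) → ℝ} (hf : ∀ x, |f x| ≤ 1) {d : ℕ} (hd1 : 1 ≤ d)
    (hV : 0 < vr f) (A : ℕ)
    (h : ∃ (S : Finset I) (y : I → Bool) (j : I), (S.card : ℝ) ≤ (2 * d / vr f) ^ A ∧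
      (vr f / (2 * d)) ^ A ≤ wt (fun x => f (fill S y x)) j) :
    ∃ S : Finset I, (S.card : ℝ) ≤ (2 * d / vr f) ^ (A + 1) ∧
      (vr f / (2 * d)) ^ (A + 1) ≤ Osc f S := by
  obtain ⟨hq0, hq1, hu, hVq⟩ := q_facts hd1 hV (vr_le_one hf)
  obtain ⟨S, y, j, h1, h2⟩ := h
  refine ⟨insert j S, ?_, ?_⟩
  · have h3 : ((insert j S).card : ℝ) ≤ S.card + 1 := by exact_mod_cast Finset.card_insert_le j S
    have h4 : (2 : ℝ) ≤ 2 * d / vr f := by
      rw [hu, le_inv_comm₀ (by norm_num) hq0]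
      linarith
    have h5 : 1 ≤ (2 * d / vr f) ^ A := one_le_pow₀ (by linarith)
    rw [pow_succ]
    nlinarith
  · refine le_trans ?_ (h2.trans (wt_fill_le hf S y j))
    exact pow_le_pow_of_le_one hq0.le (by linarith) (by omega)

/-- (v) implies (ii). -/
theorem of_product {f : (I → Bool) → ℝ} (hf : ∀ x, |f x| ≤ 1) {d : ℕ} (hd1 : 1 ≤ d)
    (hd : LowDeg d f) (hV : 0 < vr f) (A : ℕ)
    (h : ∃ δ : I → ℝ, (∀ i, |δ i| ≤ 1) ∧ ∑ i, δ i ^ 2 ≤ (2 * d / vr f) ^ A ∧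
      (vr f / (2 * d)) ^ A ≤ |ev δ f - av f|) :
    ∃ S : Finset I, (S.card : ℝ) ≤ (2 * d / vr f) ^ (3 * A + 6) ∧
      (vr f / (2 * d)) ^ (3 * A + 6) ≤ Osc f S := by
  have hd' : (1 : ℝ) ≤ d := by exact_mod_cast hd1
  have hV1 := vr_le_one hf
  obtain ⟨hq0, hq1, hu, hVq⟩ := q_facts hd1 hV hV1
  set V := vr f with hVdef
  set q : ℝ := V / (2 * d) with hq
  obtain ⟨δ, hδ, h1, h2⟩ := h
  obtain ⟨S, y, h3, h4⟩ := subcube_of_product hf hd1 hd hδ (κ := q ^ A) (by positivity) h2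
  rw [hu] at h1 ⊢
  refine ⟨S, ?_, ?_⟩
  · refine h3.trans ?_
    have h5 : 64 * (d : ℝ) ^ 4 ≤ q⁻¹ ^ 6 := by
      have h6 : 2 * (d : ℝ) ≤ q⁻¹ := by
        rw [← hu, le_div_iff₀ hV]
        nlinarith
      calc 64 * (d : ℝ) ^ 4 ≤ 64 * (d : ℝ) ^ 6 := by
            have : (d : ℝ) ^ 4 ≤ (d : ℝ) ^ 6 := pow_le_pow_right₀ hd' (by norm_num)
            linarith
        _ = (2 * (d : ℝ)) ^ 6 := by ring
        _ ≤ q⁻¹ ^ 6 := pow_le_pow_left₀ (by positivity) h6 6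
    have h7 : 64 * (d : ℝ) ^ 4 / (q ^ A) ^ 2 * ∑ i, δ i ^ 2 ≤
        q⁻¹ ^ 6 / (q ^ A) ^ 2 * q⁻¹ ^ A := by
      gcongr
    refine h7.trans (le_of_eq ?_)
    rw [div_eq_mul_inv, ← inv_pow, ← inv_pow]
    ring
  · have h8 := bias_le f S y
    calc q ^ (3 * A + 6) ≤ q ^ (A + 1) := pow_le_pow_of_le_one hq0.le (by linarith) (by omega)
      _ = q ^ A * q := pow_succ _ _
      _ ≤ q ^ A * (1 / 2) := by gcongr
      _ = q ^ A / 2 := by ring
      _ ≤ _ := h4.trans h8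

/-- (vi) implies (i). -/
theorem of_dnf {f : (I → Bool) → ℝ} (hf : ∀ x, |f x| ≤ 1) {d : ℕ} (hd1 : 1 ≤ d)
    (hd : LowDeg d f) (hV : 0 < vr f) (A : ℕ) (G : (I → Bool) → Prop) [DecidablePred G] {k : ℕ}
    (hk : (k : ℝ) ≤ (2 * d / vr f) ^ A)
    (hG : ∀ y, G y → ∃ T : Finset I, T.card ≤ k ∧ ∀ z, (∀ i ∈ T, z i = y i) → G z)
    (hle : (vr f / (2 * d)) ^ A ≤ |av (fun x => (if G x then 1 else 0) * f x) -
      av (fun x => if G x then (1 : ℝ) else 0) * av f|) :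
    ∃ j, (vr f / (2 * d)) ^ (4 * A + 3) ≤ wt f j := by
  have hd' : (1 : ℝ) ≤ d := by exact_mod_cast hd1
  have hV1 := vr_le_one hf
  obtain ⟨hq0, hq1, hu, hVq⟩ := q_facts hd1 hV hV1
  set V := vr f with hVdef
  set q : ℝ := V / (2 * d) with hq
  rw [hu] at hk
  obtain ⟨j, hj⟩ := inf_of_dnf hf hd1 hd G hG (κ := q ^ A) (by positivity) hle
  refine ⟨j, ?_⟩
  have h1 : q ^ 3 * (8 * (d : ℝ) ^ 2) ≤ 1 := by
    have h2 : q ^ 3 * (8 * (d : ℝ) ^ 2) = V ^ 3 / d := by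
      rw [hq]
      field_simp
      ring
    rw [h2, div_le_one (by positivity)]
    have : V ^ 3 ≤ 1 := pow_le_one₀ hV.le hV1
    linarith
  have hw := wt_nonneg f j
  have h3 : q ^ A * (k : ℝ) ≤ 1 := by
    calc q ^ A * (k : ℝ) ≤ q ^ A * q⁻¹ ^ A := by gcongr
      _ = 1 := by rw [← mul_pow, mul_inv_cancel₀ hq0.ne', one_pow]
  calc q ^ (4 * A + 3) = q ^ 3 * (q ^ A * (q ^ A) ^ 3) := by ring
    _ ≤ q ^ 3 * (q ^ A * (8 * (d : ℝ) ^ 2 * k * wt f j)) := by gcongr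
    _ = (q ^ 3 * (8 * (d : ℝ) ^ 2)) * (q ^ A * k) * wt f j := by ring
    _ ≤ 1 * 1 * wt f j := by gcongr
    _ = wt f j := by ring

end Pool.Agent.Lib_helper12.CERT
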