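import Pool.Agent.Lib_helper12.CERT.Reg

set_option autoImplicit false
set_option linter.unusedSectionVars false

open Finset

namespace Pool.Agent.Lib_helper12.CERT

open Lib_helper30.AA Lib_helper8.QP

variable {I : Type} [Fintype I] [DecidableEq I]

/-- The oscillation of `f` at `x` under flips inside `S`. -/
noncomputable def osc (f : (I → Bool) → ℝ) (S : Finset I) (x : I → Bool) : ℝ :=
  S.powerset.sup' ⟨∅, Finset.empty_mem_powerset S⟩ (fun B => |f (flipSet B x) - f x|)

lemma le_osc {f : (I → Bool) → ℝ} {S B : Finset I} (hB : B ⊆ S) (x : I → Bool) :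
    |f (flipSet B x) - f x| ≤ osc f S x :=
  Finset.le_sup' (fun B => |f (flipSet B x) - f x|) (Finset.mem_powerset.2 hB)

lemma exists_osc (f : (I → Bool) → ℝ) (S : Finset I) (x : I → Bool) :
    ∃ B ⊆ S, osc f S x = |f (flipSet B x) - f x| := by
  obtain ⟨B, hB, h⟩ := Finset.exists_mem_eq_sup' (s := S.powerset)
    ⟨∅, Finset.empty_mem_powerset S⟩ (fun B => |f (flipSet B x) - f x|)
  exact ⟨B, Finset.mem_powerset.1 hB, h⟩

/-- The expected oscillation. -/
noncomputable def Osc (f : (I → Bool) → ℝ) (S : Finset I) : ℝ := av (osc f S)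

lemma Osc_empty (f : (I → Bool) → ℝ) : Osc f ∅ = 0 := by
  have : osc f ∅ = fun _ => 0 := by
    funext x
    obtain ⟨B, hB, h⟩ := exists_osc f ∅ x
    rw [Finset.subset_empty.1 hB, flipSet_empty] at h
    rw [h, sub_self, abs_zero]
  unfold Osc
  rw [this, av_const]

lemma sum_Osc_le {f : (I → Bool) → ℝ} (hf : ∀ x, |f x| ≤ 1) {d : ℕ} (hd : LowDeg d f)
    {𝓢 : Finset (Finset I)} (h𝓢 : (𝓢 : Set (Finset I)).PairwiseDisjoint id) :
    ∑ S ∈ 𝓢, Osc f S ≤ 8 * (d : ℝ) ^ 2 := by
  classical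
  unfold Osc
  rw [← av_sum]
  refine av_le_const fun x => ?_
  choose b hb hb2 using fun S => exists_osc f S x
  have h1 := block_low hf hd (𝓢 := 𝓢.filter (fun S => 0 ≤ f (flipSet (b S) x) - f x))
    (h𝓢.subset (fun B hB => (Finset.mem_filter.1 (Finset.mem_coe.1 hB)).1)) b
    (fun S _ => hb S) x
  have h2 := block_low hf hd (𝓢 := 𝓢.filter (fun S => ¬ 0 ≤ f (flipSet (b S) x) - f x))
    (h𝓢.subset (fun B hB => (Finset.mem_filter.1 (Finset.mem_coe.1 hB)).1)) b
    (fun S _ => hb S) x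
  rw [← Finset.sum_filter_add_sum_filter_not 𝓢 (fun S => 0 ≤ f (flipSet (b S) x) - f x)]
  have h3 : ∑ S ∈ 𝓢.filter (fun S => 0 ≤ f (flipSet (b S) x) - f x), osc f S x =
      ∑ S ∈ 𝓢.filter (fun S => 0 ≤ f (flipSet (b S) x) - f x), (f (flipSet (b S) x) - f x) :=
    Finset.sum_congr rfl fun S hS => by
      rw [hb2 S, abs_of_nonneg (Finset.mem_filter.1 hS).2]
  have h4 : ∑ S ∈ 𝓢.filter (fun S => ¬ 0 ≤ f (flipSet (b S) x) - f x), osc f S x =
      - ∑ S ∈ 𝓢.filter (fun S => ¬ 0 ≤ f (flipSet (b S) x) - f x),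
        (f (flipSet (b S) x) - f x) := by
    rw [← Finset.sum_neg_distrib]
    exact Finset.sum_congr rfl fun S hS => by
      rw [hb2 S, abs_of_neg (not_le.1 (Finset.mem_filter.1 hS).2)]
  rw [h3, h4]
  have h5 := (abs_le.1 h1).2
  have h6 := (abs_le.1 h2).1
  linarith

/-- Jensen. -/
lemma Osc_gL_le (f : (I → Bool) → ℝ) (L S : Finset I) : Osc (gL f L) S ≤ Osc f (S \ L) := by
  have h1 : ∀ x, osc (gL f L) S x ≤ ∑ B ∈ L.powerset, ((2 : ℝ) ^ L.card)⁻¹ *
      osc f (S \ L) (flipSet B x) := by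
    intro x
    obtain ⟨C, hC, h2⟩ := exists_osc (gL f L) S x
    rw [h2, gL_flip]
    unfold gL
    rw [← Finset.sum_sub_distrib]
    refine (Finset.abs_sum_le_sum_abs _ _).trans (Finset.sum_le_sum fun B _ => ?_)
    rw [← mul_sub, abs_mul, abs_of_nonneg (by positivity : (0 : ℝ) ≤ ((2 : ℝ) ^ L.card)⁻¹)]
    refine mul_le_mul_of_nonneg_left ?_ (by positivity)
    rw [flipSet_comm]
    exact le_osc (f := f) (Finset.sdiff_subset_sdiff hC (Finset.Subset.refl L)) (flipSet B x)
  unfold Osc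
  refine (av_mono h1).trans (le_of_eq ?_)
  rw [av_sum]
  have h3 : ∀ B : Finset I, av (fun x => ((2 : ℝ) ^ L.card)⁻¹ *
      osc f (S \ L) (flipSet B x)) = ((2 : ℝ) ^ L.card)⁻¹ * av (osc f (S \ L)) := by
    intro B
    rw [av_mul_left, av_flipSet B (fun x => osc f (S \ L) x)]
  simp_rw [h3]
  rw [← Finset.sum_mul, sum_weights, one_mul]

/-- **The regularity theorem.** -/
theorem regular {f : (I → Bool) → ℝ} (hf : ∀ x, |f x| ≤ 1) {d : ℕ} (hd : LowDeg d f)
    {Es : ℝ} (hE : 0 ≤ Es) : ∃ L : Finset I, Es * W f L ≤ 8 * (d : ℝ) ^ 2 ∧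
      ∀ S, Osc (gL f L) S ≤ Es * ∑ i ∈ S, wt f i := by
  classical
  obtain ⟨𝓢, h𝓢, hmax⟩ := Finset.exists_max_image
    ((univ : Finset (Finset (Finset I))).filter
      (fun 𝓢 => ((𝓢 : Finset (Finset I)) : Set (Finset I)).PairwiseDisjoint id))
    (fun 𝓢 => ∑ S ∈ 𝓢, Osc f S - Es * W f (𝓢.biUnion id)) ⟨∅, by simp⟩
  rw [Finset.mem_filter] at h𝓢
  refine ⟨𝓢.biUnion id, ?_, ?_⟩
  · have h1 := hmax ∅ (by simp)
    simp only [Finset.sum_empty, Finset.biUnion_empty, W_empty, mul_zero, sub_self] at h1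
    have h2 := sum_Osc_le hf hd h𝓢.2
    linarith
  · intro S
    set L := 𝓢.biUnion id with hL
    refine (Osc_gL_le f L S).trans ?_
    have hmono : ∑ i ∈ S \ L, wt f i ≤ ∑ i ∈ S, wt f i :=
      Finset.sum_le_sum_of_subset_of_nonneg Finset.sdiff_subset fun i _ _ => wt_nonneg f i
    refine le_trans ?_ (mul_le_mul_of_nonneg_left hmono hE)
    by_cases hS : (S \ L).Nonempty
    · have hdisj : ∀ B ∈ 𝓢, Disjoint (S \ L) B := by
        intro B hB
        rw [Finset.disjoint_left]
        intro i hi hiB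
        exact (Finset.mem_sdiff.1 hi).2 (Finset.mem_biUnion.2 ⟨B, hB, hiB⟩)
      have hnot : S \ L ∉ 𝓢 := by
        intro h
        have := hdisj _ h
        rw [Finset.disjoint_self_iff_empty] at this
        exact hS.ne_empty this
      have h1 := hmax (insert (S \ L) 𝓢) (by
        rw [Finset.mem_filter, Finset.coe_insert, Set.pairwiseDisjoint_insert]
        exact ⟨Finset.mem_univ _, h𝓢.2, fun B hB _ => hdisj B hB⟩)
      rw [Finset.sum_insert hnot, Finset.biUnion_insert, id, ← hL] at h1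
      have h2 := W_union_le f L (S \ L)
      rw [Finset.union_comm] at h2
      have h3 := mul_le_mul_of_nonneg_left h2 hE
      rw [mul_add] at h3
      linarith
    · rw [Finset.not_nonempty_iff_eq_empty] at hS
      rw [hS, Osc_empty, Finset.sum_empty, mul_zero]

/-- `fill S y x` takes `y` on `S` and `x` off `S`. -/
def fill (S : Finset I) (y x : I → Bool) : I → Bool := fun i => if i ∈ S then y i else x i

lemma fill_eq_flipSet (S : Finset I) (y x : I → Bool) :
    fill S y x = flipSet (S.filter (fun i => x i ≠ y i)) x := by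
  funext i
  unfold fill flipSet
  by_cases h : i ∈ S
  · by_cases h2 : x i = y i
    · simp [h, h2]
    · have h3 : i ∈ S.filter (fun i => x i ≠ y i) := by simp [h, h2]
      rw [if_pos h, if_pos h3]
      cases hx : x i <;> cases hy : y i <;> simp_all
  · simp [h]

lemma bias_le (g : (I → Bool) → ℝ) (S : Finset I) (y : I → Bool) :
    |av (fun x => g (fill S y x)) - av g| ≤ Osc g S := by
  rw [← av_sub]
  refine (abs_av_le _).trans (av_mono fun x => ?_)
  rw [fill_eq_flipSet]
  exact le_osc (Finset.filter_subset _ _) x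

lemma flipSet_fill {B L : Finset I} (hB : B ⊆ L) (u x : I → Bool) :
    flipSet B (fill L u x) = fill L (flipSet B u) x := by
  funext i
  unfold flipSet fill
  by_cases h : i ∈ B
  · simp [h, hB h]
  · simp [h]

lemma gL_eq (f : (I → Bool) → ℝ) (L : Finset I) (x : I → Bool) :
    gL f L x = av (fun u => f (fill L u x)) := by
  have h1 : ∀ u, gL f L (fill L u x) = gL f L x := by
    intro u
    rw [fill_eq_flipSet, gL_flip]
    have : L.filter (fun i => x i ≠ u i) \ L = ∅ :=
      Finset.sdiff_eq_empty_iff_subset.2 (Finset.filter_subset _ _)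
    rw [this, flipSet_empty]
  have h2 : av (fun u => gL f L (fill L u x)) = gL f L x := by
    simp_rw [h1]
    rw [av_const]
  rw [← h2]
  unfold gL
  rw [av_sum]
  have h3 : ∀ B ∈ L.powerset, av (fun u => ((2 : ℝ) ^ L.card)⁻¹ * f (flipSet B (fill L u x))) =
      ((2 : ℝ) ^ L.card)⁻¹ * av (fun u => f (fill L u x)) := by
    intro B hB
    simp_rw [flipSet_fill (Finset.mem_powerset.1 hB)]
    rw [av_mul_left, av_flipSet B (fun u => f (fill L u x))]
  rw [Finset.sum_congr rfl h3, ← Finset.sum_mul, sum_weights, one_mul]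

/-- The variance. -/
noncomputable def vr (f : (I → Bool) → ℝ) : ℝ := av (fun x => f x ^ 2) - av f ^ 2

lemma vr_eq (f : (I → Bool) → ℝ) :
    vr f = ∑ T ∈ univ.filter (fun T : Finset I => T.Nonempty), coef f T ^ 2 :=
  variance_eq f

lemma vr_gL (f : (I → Bool) → ℝ) (L : Finset I) : vr f = vr (gL f L) + W f L := by
  rw [vr_eq, vr_eq]
  unfold W
  rw [Finset.sum_filter, Finset.sum_filter, Finset.sum_filter, ← Finset.sum_add_distrib]
  refine Finset.sum_congr rfl fun T _ => ?_
  rw [coef_gL]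
  by_cases h1 : T.Nonempty
  · by_cases h2 : Disjoint T L <;> simp [h1, h2]
  · rw [Finset.not_nonempty_iff_eq_empty] at h1
    subst h1
    simp

end Pool.Agent.Lib_helper12.CERT
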