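import Pool.Agent.Lib_helper12.CERT.Butterfly
import Pool.Agent.Lib_helper8.QP.Basic

set_option autoImplicit false
set_option linter.unusedSectionVars false

open Finset

namespace Pool.Agent.Lib_helper12.CERT

open Lib_helper30.AA Lib_helper8.QP

variable {I : Type} [Fintype I] [DecidableEq I]

lemma flipSet_inj {D D' : Finset I} {y : I → Bool} (h : flipSet D y = flipSet D' y) : D = D' := by
  ext i
  have h1 := congrFun h i
  unfold flipSet at h1
  by_cases h2 : i ∈ D <;> by_cases h3 : i ∈ D' <;> cases hy : y i <;> simp_all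

lemma exists_flipSet (x y : I → Bool) : ∃ D : Finset I, flipSet D y = x := by
  refine ⟨univ.filter (fun i => x i ≠ y i), ?_⟩
  funext i
  unfold flipSet
  by_cases h : x i = y i
  · simp [h]
  · have : i ∈ univ.filter (fun i => x i ≠ y i) := by simp [h]
    rw [if_pos this]
    cases hx : x i <;> cases hy : y i <;> simp_all

open Classical in
/-- **Counting pairs with complementary certificates.** -/
theorem pair_card (T : (I → Bool) → Finset I) (Y : Finset (I → Bool)) (G A : (I → Bool) → Prop)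
    (hT : ∀ y ∈ Y, ∀ z, (∀ i ∈ T y, z i = y i) → G z) :
    ∑ y ∈ Y, (univ.filter (fun x : I → Bool => ∀ z, (∀ i, i ∉ T y → z i = x i) → A z)).card ≤
      2 ^ Fintype.card I * (univ.filter (fun z : I → Bool => G z ∧ A z)).card := by
  have h1 : ∀ y : I → Bool,
      (univ.filter (fun x : I → Bool => ∀ z, (∀ i, i ∉ T y → z i = x i) → A z)).card =
      (univ.filter (fun D : Finset I =>
        ∀ z, (∀ i, i ∉ T y → z i = flipSet D y i) → A z)).card := by
    intro y
    symm
    refine Finset.card_bij (fun D _ => flipSet D y) ?_ ?_ ?_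
    · intro D hD
      rw [Finset.mem_filter] at hD ⊢
      exact ⟨Finset.mem_univ _, hD.2⟩
    · intro D _ D' _ h
      exact flipSet_inj h
    · intro x hx
      obtain ⟨D, rfl⟩ := exists_flipSet x y
      rw [Finset.mem_filter] at hx
      exact ⟨D, by rw [Finset.mem_filter]; exact ⟨Finset.mem_univ _, hx.2⟩, rfl⟩
  rw [Finset.sum_congr rfl fun y _ => h1 y]
  simp only [Finset.card_filter (fun D : Finset I => _) univ]
  rw [Finset.sum_comm]
  have h2 : ∀ D : Finset I, ∑ y ∈ Y,
      (if ∀ z, (∀ i, i ∉ T y → z i = flipSet D y i) → A z then 1 else 0) ≤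
      (univ.filter (fun z : I → Bool => G z ∧ A z)).card := by
    intro D
    rw [← Finset.card_filter]
    refine (butterfly D (Y.filter (fun y => ∀ z, (∀ i, i ∉ T y → z i = flipSet D y i) → A z))
      T).trans ?_
    apply Finset.card_le_card
    intro z hz
    rw [Finset.mem_filter] at hz ⊢
    obtain ⟨_, ⟨x, hx, hx2⟩, ⟨y, hy, hy2, hy3⟩⟩ := hz
    rw [Finset.mem_filter] at hx hy
    refine ⟨Finset.mem_univ _, ?_, ?_⟩
    · exact hT x hx.1 z fun i hi => hx2 i (Or.inr hi)
    · apply hy.2 z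
      intro i hi
      unfold flipSet
      by_cases hD : i ∈ D
      · rw [if_pos hD]
        have := hy3 i hD hi
        cases h4 : z i <;> cases h5 : y i <;> simp_all
      · rw [if_neg hD]
        exact hy2 i hD
  calc ∑ D : Finset I, ∑ y ∈ Y,
      (if ∀ z, (∀ i, i ∉ T y → z i = flipSet D y i) → A z then 1 else 0)
      ≤ ∑ D : Finset I, (univ.filter (fun z : I → Bool => G z ∧ A z)).card :=
        Finset.sum_le_sum fun D _ => h2 D
    _ = _ := by
        rw [Finset.sum_const, Finset.card_univ, Fintype.card_finset, smul_eq_mul]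

open MeasureTheory in
lemma integral_step {c M : ℝ} (h0 : 0 ≤ c) (h1 : c ≤ M) (u : ℝ) :
    ∫ r in Set.Ioc 0 M, (Set.Iic c).indicator (fun _ => u) r = c * u := by
  rw [MeasureTheory.setIntegral_indicator measurableSet_Iic]
  have : Set.Ioc 0 M ∩ Set.Iic c = Set.Ioc 0 c := by
    ext r
    simp only [Set.mem_inter_iff, Set.mem_Ioc, Set.mem_Iic]
    constructor
    · rintro ⟨⟨h2, _⟩, h3⟩; exact ⟨h2, h3⟩
    · rintro ⟨h2, h3⟩; exact ⟨⟨h2, h3.trans h1⟩, h3⟩
  rw [this, MeasureTheory.setIntegral_const, smul_eq_mul]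
  congr 1
  simp [Measure.real, h0]

open MeasureTheory in
open Classical in
/-- Layer cake. -/
lemma layer {α β : Type} (s : Finset α) (t : Finset β) (c u : α → ℝ) (h v : β → ℝ) (M : ℝ)
    (hc : ∀ a ∈ s, 0 ≤ c a ∧ c a ≤ M) (hh : ∀ b ∈ t, 0 ≤ h b ∧ h b ≤ M)
    (H : ∀ r, 0 < r → ∑ a ∈ s.filter (fun a => r ≤ c a), u a ≤
      ∑ b ∈ t.filter (fun b => r ≤ h b), v b) :
    ∑ a ∈ s, c a * u a ≤ ∑ b ∈ t, h b * v b := by
  have hint : ∀ (C U : ℝ), IntegrableOn ((Set.Iic C).indicator (fun _ : ℝ => U)) (Set.Ioc 0 M) := by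
    intro C U
    apply IntegrableOn.indicator _ measurableSet_Iic
    exact integrableOn_const (by simp) 
  have h1 : ∑ a ∈ s, c a * u a =
      ∫ r in Set.Ioc 0 M, ∑ a ∈ s, (Set.Iic (c a)).indicator (fun _ => u a) r := by
    rw [MeasureTheory.integral_finsetSum _ fun a _ => hint _ _]
    exact Finset.sum_congr rfl fun a ha => (integral_step (hc a ha).1 (hc a ha).2 _).symm
  have h2 : ∑ b ∈ t, h b * v b =
      ∫ r in Set.Ioc 0 M, ∑ b ∈ t, (Set.Iic (h b)).indicator (fun _ => v b) r := by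
    rw [MeasureTheory.integral_finsetSum _ fun a _ => hint _ _]
    exact Finset.sum_congr rfl fun a ha => (integral_step (hh a ha).1 (hh a ha).2 _).symm
  rw [h1, h2]
  refine MeasureTheory.setIntegral_mono_on (MeasureTheory.integrable_finsetSum _ fun a _ => hint _ _)
    (MeasureTheory.integrable_finsetSum _ fun a _ => hint _ _) measurableSet_Ioc fun r hr => ?_
  have h3 := H r hr.1
  rw [Finset.sum_filter, Finset.sum_filter] at h3
  simpa [Set.indicator] using h3

/-- The smallest value of `f` under flips inside `S`. -/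
noncomputable def low (f : (I → Bool) → ℝ) (S : Finset I) (x : I → Bool) : ℝ :=
  S.powerset.inf' ⟨∅, Finset.empty_mem_powerset S⟩ (fun B => f (flipSet B x))

lemma low_le {f : (I → Bool) → ℝ} {S B : Finset I} (hB : B ⊆ S) (x : I → Bool) :
    low f S x ≤ f (flipSet B x) :=
  Finset.inf'_le _ (Finset.mem_powerset.2 hB)

lemma low_le_self (f : (I → Bool) → ℝ) (S : Finset I) (x : I → Bool) : low f S x ≤ f x := by
  have := low_le (f := f) (Finset.empty_subset S) x
  rwa [flipSet_empty] at this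

lemma exists_low (f : (I → Bool) → ℝ) (S : Finset I) (x : I → Bool) :
    ∃ B ⊆ S, low f S x = f (flipSet B x) := by
  obtain ⟨B, hB, h⟩ := Finset.exists_mem_eq_inf' (s := S.powerset)
    ⟨∅, Finset.empty_mem_powerset S⟩ (fun B => f (flipSet B x))
  exact ⟨B, Finset.mem_powerset.1 hB, h⟩

lemma le_low_iff {f : (I → Bool) → ℝ} {S : Finset I} {x : I → Bool} {r : ℝ} :
    r ≤ low f S x ↔ ∀ z, (∀ i, i ∉ S → z i = x i) → r ≤ f z := by
  constructor
  · intro h z hz
    obtain ⟨D, rfl⟩ := exists_flipSet z x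
    refine h.trans (low_le ?_ x)
    intro i hi
    by_contra hcon
    have := hz i hcon
    unfold flipSet at this
    rw [if_pos hi] at this
    cases hx : x i <;> simp_all
  · intro h
    obtain ⟨B, hB, hl⟩ := exists_low f S x
    rw [hl]
    apply h
    intro i hi
    unfold flipSet
    rw [if_neg (fun h => hi (hB h))]

open Classical in
/-- **Functional form.** -/
theorem pair_sum {F h c : (I → Bool) → ℝ} {M : ℝ} (hF : ∀ x, 0 ≤ F x ∧ F x ≤ M)
    (hh : ∀ x, 0 ≤ h x ∧ h x ≤ M) (hc : ∀ x, 0 ≤ c x) (T : (I → Bool) → Finset I)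
    (hT : ∀ y z, (∀ i ∈ T y, z i = y i) → c y ≤ h z) :
    ∑ y, c y * ∑ x, low F (T y) x ≤ ∑ z, h z * (2 ^ Fintype.card I * F z) := by
  have hlow : ∀ S x, 0 ≤ low F S x ∧ low F S x ≤ M := fun S x =>
    ⟨le_low_iff.2 fun z _ => (hF z).1, (low_le_self F S x).trans (hF x).2⟩
  have stepA : ∀ (Y : Finset (I → Bool)) (G : (I → Bool) → Prop),
      (∀ y ∈ Y, ∀ z, (∀ i ∈ T y, z i = y i) → G z) →
      ∑ y ∈ Y, ∑ x, low F (T y) x ≤ ∑ z ∈ univ.filter G, 2 ^ Fintype.card I * F z := by
    intro Y G hG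
    have h1 := layer (Y ×ˢ (univ : Finset (I → Bool))) (univ.filter G)
      (fun p => low F (T p.1) p.2) (fun _ => 1) F (fun _ => (2 : ℝ) ^ Fintype.card I) M
      (fun p _ => hlow _ _) (fun z _ => hF z) ?_
    · rw [Finset.sum_product] at h1
      simp only [mul_one] at h1
      refine h1.trans (le_of_eq (Finset.sum_congr rfl fun z _ => mul_comm _ _))
    · intro r _
      have h2 := pair_card T Y G (fun z => r ≤ F z) hG
      have h3 : ∑ a ∈ (Y ×ˢ (univ : Finset (I → Bool))).filter (fun a => r ≤ low F (T a.1) a.2),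
          (1 : ℝ) = ((∑ y ∈ Y, (univ.filter (fun x : I → Bool =>
            ∀ z, (∀ i, i ∉ T y → z i = x i) → r ≤ F z)).card : ℕ) : ℝ) := by
        rw [Finset.sum_filter, Finset.sum_product, Nat.cast_sum]
        refine Finset.sum_congr rfl fun y _ => ?_
        rw [← Finset.sum_filter, Finset.sum_const, nsmul_eq_mul, mul_one]
        simp only [le_low_iff]
      have h4 : ∑ b ∈ (univ.filter G).filter (fun b => r ≤ F b), (2 : ℝ) ^ Fintype.card I =
          ((2 ^ Fintype.card I * (univ.filter (fun z : I → Bool => G z ∧ r ≤ F z)).card : ℕ) : ℝ) := by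
        rw [Finset.filter_filter, Finset.sum_const, nsmul_eq_mul]
        push_cast
        ring
      rw [h3, h4]
      exact_mod_cast h2
  refine layer univ univ c (fun y => ∑ x, low F (T y) x) h (fun z => 2 ^ Fintype.card I * F z) M
    (fun y _ => ⟨hc y, (hT y y fun _ _ => rfl).trans (hh y).2⟩) (fun z _ => hh z) ?_
  intro r _
  refine stepA _ (fun z => r ≤ h z) ?_
  intro y hy z hz
  rw [Finset.mem_filter] at hy
  exact hy.2.trans (hT y z hz)

end Pool.Agent.Lib_helper12.CERT
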