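import Pool.Agent.Lib_helper12.CERT.Dnf
import Pool.Agent.Lib_helper96.QP_T2

set_option autoImplicit false
set_option linter.unusedSectionVars false

open Finset Polynomial

namespace Pool.Agent.Lib_helper12.CERT

open Lib_helper30.AA Lib_helper8.QP

variable {I : Type} [Fintype I] [DecidableEq I]

/-- Product measures supported on the biases of the coordinates in `S`. -/
lemma ev_eq_av {δ : I → ℝ} {S : Finset I} (hS : ∀ i, i ∉ S → δ i = 0) (f : (I → Bool) → ℝ) :
    ev δ f = av (fun y => (∏ i, (1 + δ i * sg (y i))) * av (fun x => f (fill S y x))) := by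
  have h1 := part_av (T := fun _ => S) (fun _ _ _ => rfl)
    (φ := fun y => ∏ i, (1 + δ i * sg (y i))) (by
      intro y z h
      refine Finset.prod_congr rfl fun i _ => ?_
      by_cases hi : i ∈ S
      · rw [h i hi]
      · rw [hS i hi, zero_mul, zero_mul]) f
  rw [h1]
  unfold ev
  congr 1
  funext x
  ring

lemma av_weight (δ : I → ℝ) : av (fun y : I → Bool => ∏ i, (1 + δ i * sg (y i))) = 1 := by
  have := ev_const δ 1
  unfold ev at this
  simpa using this

/-- A subcube is a product measure. -/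
lemma ev_subcube (S : Finset I) (y0 : I → Bool) (f : (I → Bool) → ℝ) :
    ev (fun i => if i ∈ S then sg (y0 i) else 0) f = av (fun x => f (fill S y0 x)) := by
  rw [ev_eq_av (S := S) (fun i hi => by rw [if_neg hi])]
  have h1 : ∀ y : I → Bool,
      (∏ i, (1 + (if i ∈ S then sg (y0 i) else 0) * sg (y i))) * av (fun x => f (fill S y x)) =
      (∏ i, (1 + (if i ∈ S then sg (y0 i) else 0) * sg (y i))) *
        av (fun x => f (fill S y0 x)) := by
    intro y
    by_cases h : ∀ i ∈ S, y i = y0 i
    · congr 2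
      funext x
      congr 1
      funext i
      unfold fill
      by_cases hi : i ∈ S
      · simp [hi, h i hi]
      · simp [hi]
    · push Not at h
      obtain ⟨i, hi, hne⟩ := h
      have h2 : (∏ i, (1 + (if i ∈ S then sg (y0 i) else 0) * sg (y i))) = 0 := by
        refine Finset.prod_eq_zero (Finset.mem_univ i) ?_
        rw [if_pos hi]
        cases h3 : y i <;> cases h4 : y0 i <;> simp_all
      rw [h2, zero_mul, zero_mul]
  simp_rw [h1]
  rw [av_mul_right, av_weight, one_mul]

/-- **From a biased product measure to a biased subcube.** -/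
theorem subcube_of_product {f : (I → Bool) → ℝ} (hf : ∀ x, |f x| ≤ 1) {d : ℕ} (hd1 : 1 ≤ d)
    (hd : LowDeg d f) {δ : I → ℝ} (hδ : ∀ i, |δ i| ≤ 1) {κ : ℝ} (hκ : 0 < κ)
    (h : κ ≤ |ev δ f - av f|) :
    ∃ (S : Finset I) (y : I → Bool), (S.card : ℝ) ≤ 64 * (d : ℝ) ^ 4 / κ ^ 2 * ∑ i, δ i ^ 2 ∧
      κ / 2 ≤ |av (fun x => f (fill S y x)) - av f| := by
  classical
  have hd' : (1 : ℝ) ≤ d := by exact_mod_cast hd1
  set η : ℝ := κ / (8 * (d : ℝ) ^ 2) with hη
  have hη0 : 0 < η := by positivity
  have hκ2 : κ ≤ 2 := by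
    refine h.trans ?_
    have h1 := abs_le.1 (Lib_helper96.QP.abs_ev_le_one hf hδ)
    have h2 := abs_le.1 ((abs_av_le f).trans (av_le_const fun x => hf x))
    rw [abs_le]
    constructor <;> linarith
  have hη1 : η ≤ 1 := by
    rw [hη, div_le_one (by positivity)]
    nlinarith
  set S : Finset I := univ.filter (fun i => η < |δ i|) with hS
  set δ' : I → ℝ := fun i => if i ∈ S then δ i else 0 with hδ'
  obtain ⟨P, hP, hPe⟩ := ev_poly hd δ' (fun i => (δ i - δ' i) / η)
  have hb : ∀ t ∈ Set.Icc (0 : ℝ) 1, |P.eval t| ≤ 1 := by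
    intro t ht
    rw [hPe]
    apply Lib_helper96.QP.abs_ev_le_one hf
    intro i
    simp only [hδ']
    by_cases hi : i ∈ S
    · rw [if_pos hi]
      simpa using hδ i
    · rw [if_neg hi, sub_zero, zero_add, abs_mul, abs_div, abs_of_pos hη0, abs_of_nonneg ht.1]
      have h1 : |δ i| ≤ η := by
        rw [hS, Finset.mem_filter] at hi
        push Not at hi
        exact hi (Finset.mem_univ i)
      have h2 : |δ i| / η ≤ 1 := (div_le_one hη0).2 h1
      calc t * (|δ i| / η) ≤ 1 * 1 :=
            mul_le_mul ht.2 h2 (by positivity) (by norm_num)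
        _ = 1 := one_mul 1
  have h1 := markov_lipschitz hP (U := 1) (B := 1) one_pos one_pos hb (s := 0) (t := η)
    ⟨le_refl _, zero_le_one⟩ ⟨hη0.le, hη1⟩
  have h2 : P.eval η = ev δ f := by
    rw [hPe]
    congr 1
    funext i
    field_simp
    ring
  have h3 : P.eval 0 = ev δ' f := by
    rw [hPe]
    congr 1
    funext i
    ring
  rw [h2, h3, sub_zero, abs_of_pos hη0] at h1
  have h4 : 4 * (d : ℝ) ^ 2 * 1 / 1 * η = κ / 2 := by
    rw [hη]
    field_simp
    ring
  rw [h4] at h1
  have h5 : κ / 2 ≤ |ev δ' f - av f| := by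
    have h6 := abs_sub_abs_le_abs_sub (ev δ f - av f) (ev δ' f - av f)
    have h7 : ev δ f - av f - (ev δ' f - av f) = ev δ f - ev δ' f := by ring
    rw [h7] at h6
    linarith
  -- the size of `S`
  have h8 : (S.card : ℝ) ≤ 64 * (d : ℝ) ^ 4 / κ ^ 2 * ∑ i, δ i ^ 2 := by
    have h9 : (S.card : ℝ) * η ^ 2 ≤ ∑ i, δ i ^ 2 := by
      calc (S.card : ℝ) * η ^ 2 = ∑ _i ∈ S, η ^ 2 := by rw [Finset.sum_const, nsmul_eq_mul]
        _ ≤ ∑ i ∈ S, δ i ^ 2 := by
            refine Finset.sum_le_sum fun i hi => ?_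
            rw [← sq_abs (δ i)]
            exact pow_le_pow_left₀ hη0.le (Finset.mem_filter.1 hi).2.le 2
        _ ≤ ∑ i, δ i ^ 2 :=
            Finset.sum_le_sum_of_subset_of_nonneg (Finset.subset_univ _) fun _ _ _ => sq_nonneg _
    have h10 : 64 * (d : ℝ) ^ 4 / κ ^ 2 = 1 / η ^ 2 := by
      rw [hη]
      field_simp
      ring
    rw [h10, one_div, inv_mul_eq_div, le_div_iff₀ (by positivity)]
    exact h9
  -- the best point
  obtain ⟨y, _, hy⟩ := Finset.exists_max_image (univ : Finset (I → Bool))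
    (fun y => |av (fun x => f (fill S y x)) - av f|) ⟨fun _ => false, Finset.mem_univ _⟩
  refine ⟨S, y, h8, h5.trans ?_⟩
  have hw : ∀ x : I → Bool, 0 ≤ ∏ i, (1 + δ' i * sg (x i)) := by
    intro x
    apply weight_nonneg
    intro i
    simp only [hδ']
    split_ifs
    · exact hδ i
    · simp
  have h11 : ev δ' f - av f = av (fun y => (∏ i, (1 + δ' i * sg (y i))) *
      (av (fun x => f (fill S y x)) - av f)) := by
    rw [ev_eq_av (S := S) (δ := δ') (fun i hi => by simp only [hδ']; rw [if_neg hi])]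
    have h12 : (fun y : I → Bool => (∏ i, (1 + δ' i * sg (y i))) *
        (av (fun x => f (fill S y x)) - av f)) = fun y : I → Bool =>
        (∏ i, (1 + δ' i * sg (y i))) * av (fun x => f (fill S y x)) -
        (∏ i, (1 + δ' i * sg (y i))) * av f := by
      funext y; ring
    rw [h12, av_sub, av_mul_right, av_weight, one_mul]
  rw [h11]
  refine (abs_av_le _).trans ?_
  calc av (fun z => |(∏ i, (1 + δ' i * sg (z i))) * (av (fun x => f (fill S z x)) - av f)|)
      ≤ av (fun z => (∏ i, (1 + δ' i * sg (z i))) * |av (fun x => f (fill S y x)) - av f|) := by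
        refine av_mono fun z => ?_
        rw [abs_mul, abs_of_nonneg (hw z)]
        exact mul_le_mul_of_nonneg_left (hy z (Finset.mem_univ z)) (hw z)
    _ = |av (fun x => f (fill S y x)) - av f| := by
        rw [av_mul_right, av_weight, one_mul]

end Pool.Agent.Lib_helper12.CERT
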