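import Pool.Agent.Lib_helper12.CERT.Pair

set_option autoImplicit false
set_option linter.unusedSectionVars false

open Finset

namespace Pool.Agent.Lib_helper12.CERT

open Lib_helper30.AA Lib_helper8.QP

variable {I : Type} [Fintype I] [DecidableEq I]

/-- The expected drop of `f` under flips inside `S`. -/
noncomputable def Th (f : (I → Bool) → ℝ) (S : Finset I) : ℝ := av fun x => f x - low f S x

lemma Th_nonneg (f : (I → Bool) → ℝ) (S : Finset I) : 0 ≤ Th f S :=
  av_nonneg fun x => sub_nonneg.2 (low_le_self f S x)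

lemma Th_empty (f : (I → Bool) → ℝ) : Th f ∅ = 0 := by
  have : (fun x => f x - low f ∅ x) = fun _ => 0 := by
    funext x
    obtain ⟨B, hB, h⟩ := exists_low f ∅ x
    rw [Finset.subset_empty.1 hB, flipSet_empty] at h
    rw [h, sub_self]
  unfold Th
  rw [this, av_const]

lemma av_eq_sum {g : (I → Bool) → ℝ} :
    ∑ x, g x = (2 : ℝ) ^ Fintype.card I * av g := by
  unfold av
  rw [← mul_assoc, mul_inv_cancel₀ (by positivity), one_mul]

/-- **First-collision inequality.** -/
theorem pair_av {f h c : (I → Bool) → ℝ} (hf : ∀ x, |f x| ≤ 1)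
    (hh : ∀ x, 0 ≤ h x ∧ h x ≤ 1) (hc : ∀ x, 0 ≤ c x) (T : (I → Bool) → Finset I)
    (hT : ∀ y z, (∀ i ∈ T y, z i = y i) → c y ≤ h z) :
    av h * av f - av (fun x => h x * f x) ≤
      av (fun y => c y * Th f (T y)) + 2 * (av h - av c) := by
  have hf' : ∀ x, -1 ≤ f x ∧ f x ≤ 1 := fun x => abs_le.1 (hf x)
  have h1 := pair_sum (F := fun x => f x + 1) (h := h) (c := c) (M := 2)
    (fun x => ⟨by linarith [(hf' x).1], by linarith [(hf' x).2]⟩)
    (fun x => ⟨(hh x).1, by linarith [(hh x).2]⟩) hc T hT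
  have hlow : ∀ S x, low (fun x => f x + 1) S x = low f S x + 1 := by
    intro S x
    apply le_antisymm
    · obtain ⟨B, hB, h2⟩ := exists_low f S x
      rw [h2]
      exact low_le (f := fun x => f x + 1) hB x
    · obtain ⟨B, hB, h2⟩ := exists_low (fun x => f x + 1) S x
      rw [h2]
      linarith [low_le (f := f) hB x]
  have h2 : ∀ y, ∑ x, low (fun x => f x + 1) (T y) x =
      2 ^ Fintype.card I * (av f - Th f (T y) + 1) := by
    intro y
    simp_rw [hlow]
    rw [av_eq_sum]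
    congr 1
    unfold Th
    rw [av_add, av_sub, av_const]
    ring
  simp_rw [h2] at h1
  have h3 : ∑ y, c y * (2 ^ Fintype.card I * (av f - Th f (T y) + 1)) =
      (2 : ℝ) ^ Fintype.card I * (2 ^ Fintype.card I *
        (av c * (av f + 1) - av (fun y => c y * Th f (T y)))) := by
    have h4 : ∀ y, c y * (2 ^ Fintype.card I * (av f - Th f (T y) + 1)) =
      (2 : ℝ) ^ Fintype.card I * (c y * (av f + 1) - c y * Th f (T y)) := fun y => by ring
    simp_rw [h4]
    rw [← Finset.mul_sum, av_eq_sum, av_sub, av_mul_right]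
  have h5 : ∑ z, h z * (2 ^ Fintype.card I * (f z + 1)) =
      (2 : ℝ) ^ Fintype.card I * (2 ^ Fintype.card I *
        (av (fun x => h x * f x) + av h)) := by
    have h4 : ∀ z, h z * (2 ^ Fintype.card I * (f z + 1)) =
      (2 : ℝ) ^ Fintype.card I * (h z * f z + h z) := fun y => by ring
    simp_rw [h4]
    rw [← Finset.mul_sum, av_eq_sum, av_add]
  rw [h3, h5] at h1
  have hp : (0 : ℝ) < 2 ^ Fintype.card I := by positivity
  have h6 := le_of_mul_le_mul_left (le_of_mul_le_mul_left h1 hp) hp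
  have h7 : av c ≤ av h := av_mono fun x => hT x x fun _ _ => rfl
  have h8 : av f ≤ 1 := av_le_const fun x => (hf' x).2
  nlinarith [mul_nonneg (sub_nonneg.2 h7) (sub_nonneg.2 h8)]

/-! ### Flips -/

lemma flipSet_flipSet (B : Finset I) (x : I → Bool) : flipSet B (flipSet B x) = x := by
  funext i
  unfold flipSet
  by_cases h : i ∈ B <;> simp [h]

lemma flipSet_comm (B C : Finset I) (x : I → Bool) :
    flipSet B (flipSet C x) = flipSet C (flipSet B x) := by
  funext i
  unfold flipSet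
  by_cases h : i ∈ B <;> by_cases h' : i ∈ C <;> simp [h, h']

/-- The flip as an equivalence. -/
def flipSetEquiv (B : Finset I) : (I → Bool) ≃ (I → Bool) where
  toFun := flipSet B
  invFun := flipSet B
  left_inv := flipSet_flipSet B
  right_inv := flipSet_flipSet B

lemma av_flipSet (B : Finset I) (g : (I → Bool) → ℝ) : av (fun x => g (flipSet B x)) = av g :=
  av_comp (flipSetEquiv B) g

lemma coef_comp_flipSet (f : (I → Bool) → ℝ) (B T : Finset I) :
    coef (fun x => f (flipSet B x)) T = (-1 : ℝ) ^ (T ∩ B).card * coef f T := by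
  rw [coef_eq_av, coef_eq_av, ← av_mul_left, ← av_flipSet B]
  congr 1
  funext x
  rw [flipSet_flipSet, chi_flipSet]
  ring

/-- The average of `f` over the coordinates in `L`. -/
noncomputable def gL (f : (I → Bool) → ℝ) (L : Finset I) (x : I → Bool) : ℝ :=
  ∑ B ∈ L.powerset, ((2 : ℝ) ^ L.card)⁻¹ * f (flipSet B x)

lemma sum_weights (L : Finset I) : ∑ _B ∈ L.powerset, ((2 : ℝ) ^ L.card)⁻¹ = 1 := by
  rw [Finset.sum_const, Finset.card_powerset, nsmul_eq_mul]
  push_cast
  exact mul_inv_cancel₀ (by positivity)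

lemma gL_bound {f : (I → Bool) → ℝ} (hf : ∀ x, |f x| ≤ 1) (L : Finset I) (x : I → Bool) :
    |gL f L x| ≤ 1 := by
  unfold gL
  refine (Finset.abs_sum_le_sum_abs _ _).trans ?_
  rw [← sum_weights L]
  refine Finset.sum_le_sum fun B _ => ?_
  rw [abs_mul, abs_of_nonneg (by positivity : (0 : ℝ) ≤ ((2 : ℝ) ^ L.card)⁻¹)]
  exact mul_le_of_le_one_right (by positivity) (hf _)

lemma coef_gL (f : (I → Bool) → ℝ) (L T : Finset I) :
    coef (gL f L) T = if Disjoint T L then coef f T else 0 := by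
  unfold gL
  rw [coef_sum]
  have h1 : ∀ B : Finset I, coef (fun x => ((2 : ℝ) ^ L.card)⁻¹ * f (flipSet B x)) T =
      ((2 : ℝ) ^ L.card)⁻¹ * ((-1 : ℝ) ^ (T ∩ B).card * coef f T) := by
    intro B
    rw [coef_const_mul, coef_comp_flipSet]
  simp_rw [h1]
  have h2 : ∑ B ∈ L.powerset, (-1 : ℝ) ^ (T ∩ B).card = ∏ i ∈ L, ((if i ∈ T then -1 else 1) + 1) := by
    rw [Finset.prod_add]
    refine Finset.sum_congr rfl fun B _ => ?_
    rw [Finset.prod_const_one, mul_one, Finset.prod_ite, Finset.prod_const, Finset.prod_const_one,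
      mul_one, Finset.filter_mem_eq_inter, Finset.inter_comm]
  rw [← Finset.mul_sum, ← Finset.sum_mul, h2]
  split_ifs with h
  · have h3 : ∏ i ∈ L, ((if i ∈ T then -1 else 1) + 1 : ℝ) = 2 ^ L.card := by
      rw [← Finset.prod_const]
      refine Finset.prod_congr rfl fun i hi => ?_
      rw [if_neg fun hT => Finset.disjoint_left.1 h hT hi]
      norm_num
    rw [h3, ← mul_assoc, inv_mul_cancel₀ (by positivity), one_mul]
  · rw [Finset.not_disjoint_iff] at h
    obtain ⟨i, hiT, hiL⟩ := h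
    rw [Finset.prod_eq_zero hiL (by rw [if_pos hiT]; norm_num), zero_mul, mul_zero]

lemma gL_flip (f : (I → Bool) → ℝ) (L C : Finset I) (x : I → Bool) :
    gL f L (flipSet C x) = gL f L (flipSet (C \ L) x) := by
  rw [inversion (gL f L) (flipSet C x), inversion (gL f L) (flipSet (C \ L) x)]
  refine Finset.sum_congr rfl fun T _ => ?_
  rw [coef_gL]
  split_ifs with h
  · rw [chi_flipSet, chi_flipSet]
    have : T ∩ C = T ∩ (C \ L) := by
      ext i
      simp only [Finset.mem_inter, Finset.mem_sdiff]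
      constructor
      · rintro ⟨h1, h2⟩
        exact ⟨h1, h2, Finset.disjoint_left.1 h h1⟩
      · rintro ⟨h1, h2, _⟩
        exact ⟨h1, h2⟩
    rw [this]
  · rw [zero_mul, zero_mul]

lemma lowDeg_gL {d : ℕ} {f : (I → Bool) → ℝ} (hd : LowDeg d f) (L : Finset I) :
    LowDeg d (gL f L) := by
  intro T hT
  rw [coef_gL, hd T hT, ite_self]

/-- The Fourier weight touching `L`. -/
noncomputable def W (f : (I → Bool) → ℝ) (L : Finset I) : ℝ :=
  ∑ T ∈ univ.filter (fun T : Finset I => ¬ Disjoint T L), coef f T ^ 2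

/-- The influence. -/
noncomputable def wt (f : (I → Bool) → ℝ) (j : I) : ℝ :=
  ∑ T ∈ univ.filter (fun T : Finset I => j ∈ T), coef f T ^ 2

lemma wt_nonneg (f : (I → Bool) → ℝ) (j : I) : 0 ≤ wt f j :=
  Finset.sum_nonneg fun _ _ => sq_nonneg _

lemma W_empty (f : (I → Bool) → ℝ) : W f ∅ = 0 := by
  unfold W
  refine Finset.sum_eq_zero fun T hT => ?_
  rw [Finset.mem_filter] at hT
  exact absurd (Finset.disjoint_empty_right T) hT.2

lemma W_union_le (f : (I → Bool) → ℝ) (L S : Finset I) :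
    W f (L ∪ S) ≤ W f L + ∑ i ∈ S, wt f i := by
  unfold W wt
  have h1 : ∀ T : Finset I, (if ¬ Disjoint T (L ∪ S) then coef f T ^ 2 else 0) ≤
      (if ¬ Disjoint T L then coef f T ^ 2 else 0) +
        ∑ i ∈ S, (if i ∈ T then coef f T ^ 2 else 0) := by
    intro T
    have h0 : 0 ≤ ∑ i ∈ S, (if i ∈ T then coef f T ^ 2 else 0) :=
      Finset.sum_nonneg fun i _ => by split_ifs <;> positivity
    by_cases hL : Disjoint T L
    · by_cases hS : Disjoint T S
      · have : Disjoint T (L ∪ S) := Finset.disjoint_union_right.2 ⟨hL, hS⟩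
        rw [if_neg (not_not.2 this), if_neg (not_not.2 hL)]
        linarith
      · have : ¬ Disjoint T (L ∪ S) := fun h => hS (Finset.disjoint_union_right.1 h).2
        rw [if_pos this, if_neg (not_not.2 hL), zero_add]
        rw [Finset.not_disjoint_iff] at hS
        obtain ⟨i, hiT, hiS⟩ := hS
        have h2 := Finset.single_le_sum (f := fun i => (if i ∈ T then coef f T ^ 2 else 0))
          (fun i _ => by split_ifs <;> positivity) hiS
        simpa [hiT] using h2
    · have : ¬ Disjoint T (L ∪ S) := fun h => hL (Finset.disjoint_union_right.1 h).1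
      rw [if_pos this, if_pos hL]
      linarith
  rw [Finset.sum_filter, Finset.sum_filter]
  simp_rw [Finset.sum_filter]
  rw [Finset.sum_comm, ← Finset.sum_add_distrib]
  exact Finset.sum_le_sum fun T _ => h1 T

lemma W_le_sum (f : (I → Bool) → ℝ) (L : Finset I) : W f L ≤ ∑ i ∈ L, wt f i := by
  have := W_union_le f ∅ L
  rwa [W_empty, zero_add, Finset.empty_union] at this

lemma av_sq_sub_gL (f : (I → Bool) → ℝ) (L : Finset I) :
    av (fun x => (f x - gL f L x) ^ 2) = W f L := by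
  have h1 := parseval_sq (fun x => f x - gL f L x)
  unfold av
  rw [← h1]
  unfold W
  rw [Finset.sum_filter]
  refine Finset.sum_congr rfl fun T _ => ?_
  rw [coef_sub, coef_gL]
  by_cases h : Disjoint T L <;> simp [h]

/-- Jensen. -/
lemma Th_gL_le (f : (I → Bool) → ℝ) (L S : Finset I) : Th (gL f L) S ≤ Th f (S \ L) := by
  have h1 : ∀ x, gL f L x - low (gL f L) S x ≤ ∑ B ∈ L.powerset, ((2 : ℝ) ^ L.card)⁻¹ *
      (f (flipSet B x) - low f (S \ L) (flipSet B x)) := by
    intro x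
    obtain ⟨C, hC, h2⟩ := exists_low (gL f L) S x
    rw [h2, gL_flip]
    unfold gL
    rw [← Finset.sum_sub_distrib]
    refine Finset.sum_le_sum fun B _ => ?_
    rw [← mul_sub]
    refine mul_le_mul_of_nonneg_left ?_ (by positivity)
    rw [flipSet_comm]
    have := low_le (f := f) (Finset.sdiff_subset_sdiff hC (Finset.Subset.refl L)) (flipSet B x)
    linarith
  unfold Th
  refine (av_mono h1).trans (le_of_eq ?_)
  rw [av_sum]
  have h3 : ∀ B : Finset I, av (fun x => ((2 : ℝ) ^ L.card)⁻¹ *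
      (f (flipSet B x) - low f (S \ L) (flipSet B x))) = ((2 : ℝ) ^ L.card)⁻¹ *
      av (fun x => f x - low f (S \ L) x) := by
    intro B
    rw [av_mul_left, av_flipSet B (fun x => f x - low f (S \ L) x)]
  simp_rw [h3]
  rw [← Finset.sum_mul, sum_weights, one_mul]

/-- **Block sensitivity for families of sets.** -/
lemma block_low {f : (I → Bool) → ℝ} (hf : ∀ x, |f x| ≤ 1) {d : ℕ} (hd : LowDeg d f)
    {𝓢 : Finset (Finset I)} (h𝓢 : (𝓢 : Set (Finset I)).PairwiseDisjoint id)
    (b : Finset I → Finset I) (hb : ∀ S ∈ 𝓢, b S ⊆ S) (x : I → Bool) :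
    |∑ S ∈ 𝓢, (f (flipSet (b S) x) - f x)| ≤ 4 * (d : ℝ) ^ 2 := by
  classical
  set 𝓢' := 𝓢.filter (fun S => (b S).Nonempty) with h𝓢'
  have h1 : ∑ S ∈ 𝓢, (f (flipSet (b S) x) - f x) = ∑ S ∈ 𝓢', (f (flipSet (b S) x) - f x) := by
    rw [h𝓢', Finset.sum_filter]
    refine Finset.sum_congr rfl fun S _ => ?_
    split_ifs with h
    · rfl
    · rw [Finset.not_nonempty_iff_eq_empty.1 h, flipSet_empty, sub_self]
  have hinj : ∀ S ∈ 𝓢', ∀ S' ∈ 𝓢', b S = b S' → S = S' := by
    intro S hS S' hS' h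
    by_contra hne
    rw [h𝓢', Finset.mem_filter] at hS hS'
    obtain ⟨i, hi⟩ := hS.2
    have h2 := h𝓢 hS.1 hS'.1 hne
    exact Finset.disjoint_left.1 h2 (hb S hS.1 hi) (hb S' hS'.1 (h ▸ hi))
  have h2 : ∑ S ∈ 𝓢', (f (flipSet (b S) x) - f x) =
      ∑ B ∈ 𝓢'.image b, (f (flipSet B x) - f x) := by
    rw [Finset.sum_image fun S hS S' hS' h => hinj S hS S' hS' h]
  rw [h1, h2]
  refine block_signed hf hd ?_ x
  intro B hB B' hB' hne
  rw [Finset.coe_image] at hB hB'
  obtain ⟨S, hS, rfl⟩ := hB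
  obtain ⟨S', hS', rfl⟩ := hB'
  have hSS : S ≠ S' := fun h => hne (by rw [h])
  rw [Finset.mem_coe, h𝓢', Finset.mem_filter] at hS hS'
  exact Finset.disjoint_of_subset_left (hb S hS.1)
    (Finset.disjoint_of_subset_right (hb S' hS'.1) (h𝓢 hS.1 hS'.1 hSS))

lemma sum_Th_le {f : (I → Bool) → ℝ} (hf : ∀ x, |f x| ≤ 1) {d : ℕ} (hd : LowDeg d f)
    {𝓢 : Finset (Finset I)} (h𝓢 : (𝓢 : Set (Finset I)).PairwiseDisjoint id) :
    ∑ S ∈ 𝓢, Th f S ≤ 4 * (d : ℝ) ^ 2 := by
  unfold Th
  rw [← av_sum]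
  refine av_le_const fun x => ?_
  choose b hb hb2 using fun S => exists_low f S x
  have h1 := block_low hf hd h𝓢 b (fun S _ => hb S) x
  have h2 : ∑ S ∈ 𝓢, (f x - low f S x) = - ∑ S ∈ 𝓢, (f (flipSet (b S) x) - f x) := by
    rw [← Finset.sum_neg_distrib]
    refine Finset.sum_congr rfl fun S _ => ?_
    rw [hb2 S]
    ring
  rw [h2]
  exact (neg_le_abs _).trans h1

/-- **Regularisation.** -/
theorem regularise {f : (I → Bool) → ℝ} (hf : ∀ x, |f x| ≤ 1) {d : ℕ} (hd : LowDeg d f)
    {Es : ℝ} (hE : 0 ≤ Es) : ∃ L : Finset I, Es * W f L ≤ 4 * (d : ℝ) ^ 2 ∧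
      ∀ S, Th (gL f L) S ≤ Es * ∑ i ∈ S, wt f i := by
  classical
  obtain ⟨𝓢, h𝓢, hmax⟩ := Finset.exists_max_image
    ((univ : Finset (Finset (Finset I))).filter
      (fun 𝓢 => ((𝓢 : Finset (Finset I)) : Set (Finset I)).PairwiseDisjoint id))
    (fun 𝓢 => ∑ S ∈ 𝓢, Th f S - Es * W f (𝓢.biUnion id)) ⟨∅, by simp⟩
  rw [Finset.mem_filter] at h𝓢
  refine ⟨𝓢.biUnion id, ?_, ?_⟩
  · have h1 := hmax ∅ (by simp)
    simp only [Finset.sum_empty, Finset.biUnion_empty, W_empty, mul_zero, sub_self] at h1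
    have h2 := sum_Th_le hf hd h𝓢.2
    linarith
  · intro S
    set L := 𝓢.biUnion id with hL
    refine (Th_gL_le f L S).trans ?_
    have hmono : ∑ i ∈ S \ L, wt f i ≤ ∑ i ∈ S, wt f i :=
      Finset.sum_le_sum_of_subset_of_nonneg Finset.sdiff_subset fun i _ _ => wt_nonneg f i
    refine le_trans ?_ (mul_le_mul_of_nonneg_left hmono hE)
    by_cases hS : (S \ L).Nonempty
    · have hdisj : ∀ B ∈ 𝓢, Disjoint (S \ L) B := by
        intro B hB
        rw [Finset.disjoint_left]
        intro i hi hiB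
        exact (Finset.mem_sdiff.1 hi).2 (Finset.mem_biUnion.2 ⟨B, hB, hiB⟩)
      have hnot : S \ L ∉ 𝓢 := by
        intro h
        have := hdisj _ h
        rw [Finset.disjoint_self_iff_empty] at this
        exact hS.ne_empty this
      have h1 := hmax (insert (S \ L) 𝓢) (by
        rw [Finset.mem_filter, Finset.coe_insert, Set.pairwiseDisjoint_insert]
        exact ⟨Finset.mem_univ _, h𝓢.2, fun B hB _ => hdisj B hB⟩)
      rw [Finset.sum_insert hnot, Finset.biUnion_insert, id, ← hL] at h1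
      have h2 := W_union_le f L (S \ L)
      rw [Finset.union_comm] at h2
      have h3 := mul_le_mul_of_nonneg_left h2 hE
      rw [mul_add] at h3
      linarith
    · rw [Finset.not_nonempty_iff_eq_empty] at hS
      rw [hS, Th_empty, Finset.sum_empty, mul_zero]

end Pool.Agent.Lib_helper12.CERT
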