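import Pool.Agent.Lib_helper12.CERT.Osc

set_option autoImplicit false
set_option linter.unusedSectionVars false

open Finset

namespace Pool.Agent.Lib_helper12.CERT

open Lib_helper30.AA Lib_helper8.QP

variable {I : Type} [Fintype I] [DecidableEq I]

/-- The sets `T y` define a partition of the cube into subcubes. -/
def Part (T : (I → Bool) → Finset I) : Prop := ∀ y z, (∀ i ∈ T y, z i = y i) → T z = T y

lemma fill_fill (S : Finset I) (y x : I → Bool) : fill S (fill S y x) (fill S x y) = y := by
  funext i
  unfold fill
  by_cases h : i ∈ S <;> simp [h]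

lemma fill_agree (S : Finset I) (y x : I → Bool) : ∀ i ∈ S, fill S y x i = y i := by
  intro i hi
  unfold fill
  rw [if_pos hi]

lemma part_av {T : (I → Bool) → Finset I} (hT : Part T) {φ : (I → Bool) → ℝ}
    (hφ : ∀ y z, (∀ i ∈ T y, z i = y i) → φ z = φ y) (F : (I → Bool) → ℝ) :
    av (fun y => φ y * av (fun x => F (fill (T y) y x))) = av (fun z => φ z * F z) := by
  let sw : (I → Bool) × (I → Bool) → (I → Bool) × (I → Bool) :=
    fun p => (fill (T p.1) p.1 p.2, fill (T p.1) p.2 p.1)
  have hTf : ∀ y x, T (fill (T y) y x) = T y := fun y x => hT y _ (fill_agree _ _ _)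
  have hsw : Function.Involutive sw := by
    rintro ⟨y, x⟩
    simp only [sw, hTf]
    rw [fill_fill, fill_fill]
  have h1 : ∑ y : I → Bool, ∑ x : I → Bool, φ y * F (fill (T y) y x) =
      ∑ z : I → Bool, ∑ _w : I → Bool, φ z * F z := by
    rw [← Fintype.sum_prod_type' (f := fun y x => φ y * F (fill (T y) y x)),
      ← Fintype.sum_prod_type' (f := fun z (_ : I → Bool) => φ z * F z)]
    refine Fintype.sum_bijective sw hsw.bijective _ _ (fun p => ?_)
    simp only [sw]
    rw [hφ p.1 _ (fill_agree _ _ _)]
  have h2 : ∀ y, φ y * av (fun x => F (fill (T y) y x)) =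
      ((2 : ℝ) ^ Fintype.card I)⁻¹ * ∑ x : I → Bool, φ y * F (fill (T y) y x) := by
    intro y
    unfold av
    rw [← Finset.mul_sum]
    ring
  simp_rw [h2]
  rw [av_mul_left]
  unfold av
  rw [h1]
  simp only [Finset.sum_const, Finset.card_univ, nsmul_eq_mul]
  rw [← Finset.mul_sum]
  have h3 : ((Fintype.card (I → Bool) : ℕ) : ℝ) = 2 ^ Fintype.card I := by simp
  rw [h3]
  field_simp

lemma av_fill (S : Finset I) (y0 : I → Bool) (H : (I → Bool) → ℝ) :
    av (fun y => if ∀ i ∈ S, y i = y0 i then H y else 0) =
      av (fun y : I → Bool => if ∀ i ∈ S, y i = y0 i then (1 : ℝ) else 0) *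
        av (fun x => H (fill S y0 x)) := by
  have h1 := part_av (T := fun _ => S) (fun _ _ _ => rfl)
    (φ := fun y => if ∀ i ∈ S, y i = y0 i then (1 : ℝ) else 0) (by
      intro y z h
      have : (∀ i ∈ S, z i = y0 i) ↔ (∀ i ∈ S, y i = y0 i) :=
        ⟨fun h2 i hi => (h i hi).symm.trans (h2 i hi), fun h2 i hi => (h i hi).trans (h2 i hi)⟩
      simp only [this]) H
  have h2 : (fun z => (if ∀ i ∈ S, z i = y0 i then (1 : ℝ) else 0) * H z) =
      fun y => if ∀ i ∈ S, y i = y0 i then H y else 0 := by
    funext z
    split_ifs <;> simp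
  rw [h2] at h1
  rw [← h1, ← av_mul_right]
  congr 1
  funext y
  split_ifs with h
  · congr 2
    funext x
    congr 1
    funext i
    unfold fill
    by_cases hi : i ∈ S
    · simp [hi, h i hi]
    · simp [hi]
  · simp

lemma wt_eq (f : (I → Bool) → ℝ) (j : I) :
    wt f j = av (fun x => ((f x - f (flip j x)) / 2) ^ 2) := (influence_eq f j).symm

lemma sum_wt_le {f : (I → Bool) → ℝ} (hf : ∀ x, |f x| ≤ 1) {d : ℕ} (hd : LowDeg d f) :
    ∑ i, wt f i ≤ d := by
  have h1 : ∑ i, wt f i = ∑ T : Finset I, (T.card : ℝ) * coef f T ^ 2 := by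
    unfold wt
    simp_rw [Finset.sum_filter]
    rw [Finset.sum_comm]
    refine Finset.sum_congr rfl fun T _ => ?_
    rw [← Finset.sum_filter, Finset.sum_const, nsmul_eq_mul, Finset.filter_univ_mem]
  rw [h1]
  calc ∑ T : Finset I, (T.card : ℝ) * coef f T ^ 2 ≤ ∑ T : Finset I, (d : ℝ) * coef f T ^ 2 := by
        refine Finset.sum_le_sum fun T _ => ?_
        by_cases hT : d < T.card
        · rw [hd T hT]; simp
        · have : (T.card : ℝ) ≤ d := by exact_mod_cast not_lt.1 hT
          exact mul_le_mul_of_nonneg_right this (sq_nonneg _)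
    _ = d * ∑ T : Finset I, coef f T ^ 2 := by rw [Finset.mul_sum]
    _ ≤ d * 1 := by
        refine mul_le_mul_of_nonneg_left ?_ (by positivity)
        have := sum_coef_sq_le hf (univ : Finset (Finset I))
        simpa using this
    _ = d := mul_one _

/-- **The greedy partition.** -/
theorem exists_part {f : (I → Bool) → ℝ} (hf : ∀ x, |f x| ≤ 1) {d : ℕ} (hd : LowDeg d f)
    {θ : ℝ} (hθ : 0 < θ) : ∃ T : (I → Bool) → Finset I, Part T ∧
      θ * av (fun y => ((T y).card : ℝ)) ≤ d ∧
      ∀ y j, wt (fun x => f (fill (T y) y x)) j ≤ θ := by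
  classical
  set E : I → (I → Bool) → ℝ := fun i y => ((f y - f (flip i y)) / 2) ^ 2 with hE
  set J : ((I → Bool) → Finset I) → ℝ := fun T =>
    av (fun y => ∑ i ∈ (T y)ᶜ, E i y + θ * ((T y).card : ℝ)) with hJ
  obtain ⟨T, hT, hmin⟩ := Finset.exists_min_image
    ((univ : Finset ((I → Bool) → Finset I)).filter (fun T => Part T)) J
    ⟨fun _ => ∅, by rw [Finset.mem_filter]; exact ⟨Finset.mem_univ _, fun _ _ _ => rfl⟩⟩
  rw [Finset.mem_filter] at hT
  have hE0 : ∀ i y, 0 ≤ E i y := fun i y => sq_nonneg _
  refine ⟨T, hT.2, ?_, ?_⟩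
  · have h1 := hmin (fun _ => ∅)
      (by rw [Finset.mem_filter]; exact ⟨Finset.mem_univ _, fun _ _ _ => rfl⟩)
    have h2 : J (fun _ => ∅) ≤ d := by
      have h3 : J (fun _ => ∅) = ∑ i, wt f i := by
        simp only [hJ, Finset.card_empty, Nat.cast_zero, mul_zero, add_zero, Finset.compl_empty]
        rw [av_sum]
        exact Finset.sum_congr rfl fun i _ => (wt_eq f i).symm
      rw [h3]
      exact sum_wt_le hf hd
    refine le_trans ?_ (h1.trans h2)
    rw [← av_mul_left]
    refine av_mono fun y => ?_
    have : 0 ≤ ∑ i ∈ (T y)ᶜ, E i y := Finset.sum_nonneg fun i _ => hE0 i y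
    linarith
  · intro y0 j
    by_cases hj : j ∈ T y0
    · have h1 : wt (fun x => f (fill (T y0) y0 x)) j = 0 := by
        rw [wt_eq]
        have h2 : ∀ x, fill (T y0) y0 (flip j x) = fill (T y0) y0 x := by
          intro x
          funext i
          unfold fill
          by_cases hi : i ∈ T y0
          · simp [hi]
          · rw [if_neg hi, if_neg hi, flip_apply_of_ne]
            rintro rfl
            exact hi hj
        simp_rw [h2]
        simp only [sub_self, zero_div, ne_eq, OfNat.ofNat_ne_zero, not_false_eq_true, zero_pow]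
        exact av_const 0
      rw [h1]
      exact hθ.le
    · -- refine the leaf
      set T' : (I → Bool) → Finset I := fun y =>
        if ∀ i ∈ T y0, y i = y0 i then insert j (T y0) else T y with hT'
      have hleaf : ∀ y, (∀ i ∈ T y0, y i = y0 i) → T y = T y0 := fun y h => hT.2 y0 y h
      have hPart : Part T' := by
        intro y z h
        simp only [hT'] at h ⊢
        by_cases hy : ∀ i ∈ T y0, y i = y0 i
        · rw [if_pos hy] at h ⊢
          rw [if_pos]
          intro i hi
          exact (h i (Finset.mem_insert_of_mem hi)).trans (hy i hi)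
        · rw [if_neg hy] at h ⊢
          rw [if_neg]
          · exact hT.2 y z h
          · intro hz
            apply hy
            have h1 : T z = T y := hT.2 y z h
            have h2 : T z = T y0 := hleaf z hz
            intro i hi
            rw [← h2, h1] at hi
            rw [← h i hi]
            apply hz
            rw [← h2, h1]
            exact hi
      have h1 := hmin T' (by rw [Finset.mem_filter]; exact ⟨Finset.mem_univ _, hPart⟩)
      have h2 : J T' - J T =
          av (fun y => if ∀ i ∈ T y0, y i = y0 i then θ - E j y else 0) := by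
        simp only [hJ]
        rw [← av_sub]
        congr 1
        funext y
        simp only [hT']
        split_ifs with h
        · rw [hleaf y h, Finset.card_insert_of_notMem hj]
          have h3 : (T y0)ᶜ = insert j (insert j (T y0))ᶜ := by
            ext i
            simp only [Finset.mem_compl, Finset.mem_insert]
            by_cases hi : i = j
            · subst hi; simp [hj]
            · simp [hi]
          have h4 : ∑ i ∈ (T y0)ᶜ, E i y = E j y + ∑ i ∈ (insert j (T y0))ᶜ, E i y := by
            conv_lhs => rw [h3]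
            rw [Finset.sum_insert (by simp)]
          rw [h4]
          push_cast
          ring
        · ring
      rw [av_fill] at h2
      have h5 : 0 ≤ av (fun y : I → Bool => if ∀ i ∈ T y0, y i = y0 i then (1 : ℝ) else 0) *
          av (fun x => θ - E j (fill (T y0) y0 x)) := by linarith
      have h6 : 0 < av (fun y : I → Bool => if ∀ i ∈ T y0, y i = y0 i then (1 : ℝ) else 0) := by
        unfold av
        refine mul_pos (by positivity) (Finset.sum_pos' (fun y _ => by split_ifs <;> norm_num)
          ⟨y0, Finset.mem_univ _, ?_⟩)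
        rw [if_pos fun _ _ => rfl]
        norm_num
      have h7 : 0 ≤ av (fun x => θ - E j (fill (T y0) y0 x)) :=
        nonneg_of_mul_nonneg_right h5 h6
      rw [av_sub, av_const] at h7
      rw [wt_eq]
      have h8 : ∀ x, fill (T y0) y0 (flip j x) = flip j (fill (T y0) y0 x) := by
        intro x
        funext i
        unfold fill
        by_cases hi : i = j
        · subst hi
          rw [if_neg hj]
          simp [Lib_helper30.AA.flip, hj]
        · rw [flip_apply_of_ne hi, flip_apply_of_ne hi]
      simp_rw [h8]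
      linarith

end Pool.Agent.Lib_helper12.CERT
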